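import Pool.Agent.Helper36.HBasis.WalkB

open MeasureTheory Filter Topology

namespace HBasis

namespace Walk

theorem sum_cavg {K M : ℕ} (c : Xi K M → ℂ) (y : Om K M → ℂ) :
    ∑ ξ, c ξ * cavg (fun ω => bet K M ξ ω * y ω) =
      cavg (fun ω => (∑ ξ, c ξ * bet K M ξ ω) * y ω) := by
  simp only [Finset.sum_mul]
  rw [cavg_finset_sum]
  apply Finset.sum_congr rfl
  intro ξ _
  rw [← cavg_mul_left]
  congr 1
  funext ω
  ring

/-- reproducing formula. -/
theorem cavg_ker {K M D : ℕ} {δ : ℝ} (G : Om K M → ℂ)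
    (hG : ∀ j, 1 ≤ j → j ≤ D → cavg (fun ω => G ω * walk δ K M ω ^ j) = 0)
    (θ : AddCircle (1 : ℝ)) :
    cavg (fun ω => G ω * ((ker D (fourier 1 θ * (starRingEnd ℂ) (walk δ K M ω)) : ℝ) : ℂ)) =
      ∑ j ∈ Finset.range (D + 1), (lw D j : ℂ) *
        cavg (fun ω => G ω * (starRingEnd ℂ) (walk δ K M ω) ^ j) * fourier 1 θ ^ j := by
  have h1 : ∀ ω, G ω * ((ker D (fourier 1 θ * (starRingEnd ℂ) (walk δ K M ω)) : ℝ) : ℂ) =
      ((∑ j ∈ Finset.range (D + 1), ((lw D j : ℂ) * fourier (j : ℤ) θ) *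
        (G ω * (starRingEnd ℂ) (walk δ K M ω) ^ j)) +
      (∑ j ∈ Finset.range (D + 1), ((lw D j : ℂ) * fourier (-(j : ℤ)) θ) *
        (G ω * (walk δ K M ω) ^ j))) - G ω := by
    intro ω
    rw [ker_eq, conj_FF_mul, FF_mul, mul_sub, mul_add, Finset.mul_sum, Finset.mul_sum, mul_one]
    congr 2
    · apply Finset.sum_congr rfl
      intro j _
      ring
    · apply Finset.sum_congr rfl
      intro j _
      ring
  simp only [h1]
  rw [cavg_sub, cavg_add, cavg_finset_sum, cavg_finset_sum]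
  simp only [cavg_mul_left]
  have h2 : ∑ j ∈ Finset.range (D + 1), ((lw D j : ℂ) * fourier (-(j : ℤ)) θ) *
      cavg (fun ω => G ω * (walk δ K M ω) ^ j) = cavg G := by
    rw [Finset.sum_eq_single 0]
    · simp [lw_zero]
    · intro j hj hj0
      rw [hG j (by omega) (by have := Finset.mem_range.1 hj; omega), mul_zero]
    · simp
  rw [h2, add_sub_cancel_right]
  apply Finset.sum_congr rfl
  intro j _
  rw [fourier_one_pow]
  ring

theorem norm_fw_le {δ : ℝ} (h0 : 0 ≤ δ) {K M : ℕ} (θ : AddCircle (1 : ℝ)) (ω : Om K M) :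
    ‖(fourier 1 θ : ℂ) * (starRingEnd ℂ) (walk δ K M ω)‖ ≤ 1 := by
  rw [norm_mul, norm_fourier, one_mul, RCLike.norm_conj]
  exact norm_walk_le h0 K M ω

theorem B_bound {K M D : ℕ} {δ : ℝ} (h0 : 0 ≤ δ) (G : Om K M → ℂ)
    (hG : ∀ j, 1 ≤ j → j ≤ D → cavg (fun ω => G ω * walk δ K M ω ^ j) = 0) :
    ∫ θ : AddCircle (1 : ℝ), ‖∑ j ∈ Finset.range (D + 1), (lw D j : ℂ) *
        cavg (fun ω => G ω * (starRingEnd ℂ) (walk δ K M ω) ^ j) * fourier 1 θ ^ j‖
        ∂AddCircle.haarAddCircle ≤ avg (fun ω => ‖G ω‖) := by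
  have h1 : ∀ θ : AddCircle (1 : ℝ), ‖∑ j ∈ Finset.range (D + 1), (lw D j : ℂ) *
        cavg (fun ω => G ω * (starRingEnd ℂ) (walk δ K M ω) ^ j) * fourier 1 θ ^ j‖ ≤
        avg (fun ω => ‖G ω‖ * ker D (fourier 1 θ * (starRingEnd ℂ) (walk δ K M ω))) := by
    intro θ
    rw [← cavg_ker G hG θ]
    refine (norm_cavg_le _).trans (le_of_eq ?_)
    congr 1
    funext ω
    rw [norm_mul, Complex.norm_real, Real.norm_of_nonneg (ker_nonneg (norm_fw_le h0 θ ω))]
  calc _ ≤ ∫ θ : AddCircle (1 : ℝ), avg (fun ω => ‖G ω‖ *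
        ker D (fourier 1 θ * (starRingEnd ℂ) (walk δ K M ω))) ∂AddCircle.haarAddCircle := by
        apply integral_mono _ _ h1
        · exact integrable_of_cont (by fun_prop)
        · apply integrable_of_cont
          unfold avg
          apply Continuous.div_const
          exact continuous_finsetSum _ fun ω _ => continuous_const.mul (continuous_ker D _)
    _ = avg (fun ω => ‖G ω‖) := by
        rw [int_avg (fun (ω : Om K M) (θ : AddCircle (1 : ℝ)) => ‖G ω‖ *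
          ker D (fourier 1 θ * (starRingEnd ℂ) (walk δ K M ω)))
          fun ω => continuous_const.mul (continuous_ker D _)]
        congr 1
        funext ω
        rw [integral_const_mul, int_ker, mul_one]

/-- the smoothed polynomial along the walk. -/
theorem smooth_bound {K M D N : ℕ} {δ : ℝ} (h0 : 0 ≤ δ) (hND : N ≤ D) (hDK : D < K)
    (c : Fin (N + 1) → ℂ) :
    avg (fun ω : Om K M => ‖∑ k : Fin (N + 1), c k * ((lw D k : ℂ) * walk δ K M ω ^ (k : ℕ))‖) ≤
      ∫ θ : AddCircle (1 : ℝ), ‖∑ k : Fin (N + 1), c k * fourier ((k : ℕ) : ℤ) θ‖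
        ∂AddCircle.haarAddCircle := by
  have : NeZero K := ⟨by omega⟩
  set f : AddCircle (1 : ℝ) → ℂ := fun θ => ∑ k : Fin (N + 1), c k * fourier ((k : ℕ) : ℤ) θ with hf
  have hfc : Continuous f := by rw [hf]; fun_prop
  have h1 : ∀ ω : Om K M, ∑ k : Fin (N + 1), c k * ((lw D k : ℂ) * walk δ K M ω ^ (k : ℕ)) =
      ∫ θ, f θ * ((ker D (fourier 1 θ * (starRingEnd ℂ) (walk δ K M ω)) : ℝ) : ℂ)
        ∂AddCircle.haarAddCircle := by
    intro ω
    have e : ∀ θ, f θ * ((ker D (fourier 1 θ * (starRingEnd ℂ) (walk δ K M ω)) : ℝ) : ℂ) =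
        ∑ k : Fin (N + 1), c k * (fourier ((k : ℕ) : ℤ) θ *
          ((ker D (fourier 1 θ * (starRingEnd ℂ) (walk δ K M ω)) : ℝ) : ℂ)) := by
      intro θ
      rw [hf, Finset.sum_mul]
      apply Finset.sum_congr rfl
      intro k _
      ring
    simp only [e]
    rw [integral_finsetSum]
    · apply Finset.sum_congr rfl
      intro k _
      rw [integral_const_mul, int_fourier_ker (by have := k.isLt; omega)]
    · intro k _
      apply integrable_of_cont
      have := continuous_ker D ((starRingEnd ℂ) (walk δ K M ω))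
      fun_prop
  have h2 : ∀ ω : Om K M, ‖∑ k : Fin (N + 1), c k * ((lw D k : ℂ) * walk δ K M ω ^ (k : ℕ))‖ ≤
      ∫ θ, ‖f θ‖ * ker D (fourier 1 θ * (starRingEnd ℂ) (walk δ K M ω))
        ∂AddCircle.haarAddCircle := by
    intro ω
    rw [h1]
    refine (norm_integral_le_integral_norm _).trans (le_of_eq ?_)
    congr 1
    funext θ
    rw [norm_mul, Complex.norm_real, Real.norm_of_nonneg (ker_nonneg (norm_fw_le h0 θ ω))]
  have h3 : ∀ θ : AddCircle (1 : ℝ), avg (fun ω : Om K M =>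
      ker D (fourier 1 θ * (starRingEnd ℂ) (walk δ K M ω))) = 1 := by
    intro θ
    have h4 := cavg_ker (K := K) (M := M) (D := D) (δ := δ) (fun _ => 1) (by
      intro j hj1 hj2
      simp only [one_mul]
      exact cavg_walk_pow hj1 (by omega) M) θ
    simp only [one_mul] at h4
    rw [cavg_ofReal] at h4
    have h5 : ∑ j ∈ Finset.range (D + 1), (lw D j : ℂ) *
        cavg (fun ω : Om K M => (starRingEnd ℂ) (walk δ K M ω) ^ j) * fourier 1 θ ^ j = 1 := by
      rw [Finset.sum_eq_single 0]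
      · simp [lw_zero, cavg_const]
      · intro j hj hj0
        have h6 : cavg (fun ω : Om K M => (starRingEnd ℂ) (walk δ K M ω) ^ j) = 0 := by
          have h7 := cavg_conj (fun ω : Om K M => walk δ K M ω ^ j)
          simp only [map_pow] at h7
          rw [← h7, cavg_walk_pow (by omega) (by have := Finset.mem_range.1 hj; omega) M, map_zero]
        rw [h6]; ring
      · simp
    rw [h5] at h4
    exact_mod_cast h4
  calc _ ≤ avg (fun ω : Om K M => ∫ θ, ‖f θ‖ * ker D (fourier 1 θ * (starRingEnd ℂ) (walk δ K M ω))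
        ∂AddCircle.haarAddCircle) := avg_mono h2
    _ = ∫ θ, avg (fun ω : Om K M => ‖f θ‖ * ker D (fourier 1 θ * (starRingEnd ℂ) (walk δ K M ω)))
        ∂AddCircle.haarAddCircle := by
        rw [int_avg (fun (ω : Om K M) (θ : AddCircle (1 : ℝ)) => ‖f θ‖ *
          ker D (fourier 1 θ * (starRingEnd ℂ) (walk δ K M ω)))
          fun ω => hfc.norm.mul (continuous_ker D _)]
    _ = _ := by
        congr 1
        funext θ
        rw [avg_mul_left, h3, mul_one]

theorem avg_lin_one {δ : ℝ} (h0 : 0 ≤ δ) {K k : ℕ} (hK : 1 < K) (hk : k < K) (M : ℕ) :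
    avg (fun ω : Om K M => ‖walk δ K M ω ^ k - JJ δ K k M ω‖) ≤ (k : ℝ) ^ 2 * δ := by
  have : NeZero K := ⟨by omega⟩
  refine (avg_sq_le _).trans ?_
  have h1 := avg_lin h0 hK hk M
  have h2 := avg_walk_sq_le (K := K) h0 M
  have h3 : avg (fun ω : Om K M => ‖walk δ K M ω ^ k - JJ δ K k M ω‖ ^ 2) ≤
      ((k : ℝ) ^ 2 * δ) ^ 2 := by
    have h4 : (0 : ℝ) ≤ (k : ℝ) ^ 4 * δ ^ 2 := by positivity
    nlinarith
  calc _ ≤ Real.sqrt (((k : ℝ) ^ 2 * δ) ^ 2) := Real.sqrt_le_sqrt h3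
    _ = _ := Real.sqrt_sq (by positivity)

/-- diagonal coefficient. -/
noncomputable def rho (δ : ℝ) (K k M : ℕ) : ℂ :=
  cavg (fun ω : Om K M => JJ δ K k M ω * (starRingEnd ℂ) (walk δ K M ω) ^ k)

theorem rho_close {δ : ℝ} (h0 : 0 < δ) (h1 : δ ≤ 1) {K k : ℕ} (hK : 1 < K) (hk : k < K) {M : ℕ} :
    ‖rho δ K k M - 1‖ ≤ avg (fun ω : Om K M => ind δ (walk δ K M ω)) + 2 * (k : ℝ) * δ +
      (k : ℝ) ^ 2 * δ := by
  have : NeZero K := ⟨by omega⟩
  have e1 : rho δ K k M - 1 =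
      cavg (fun ω : Om K M => -(((1 - ‖walk δ K M ω‖ ^ (2 * k) : ℝ) : ℂ) +
        (walk δ K M ω ^ k - JJ δ K k M ω) * (starRingEnd ℂ) (walk δ K M ω) ^ k)) := by
    unfold rho
    rw [← cavg_const (α := Om K M) 1, ← cavg_sub]
    congr 1
    funext ω
    have h2 : walk δ K M ω ^ k * (starRingEnd ℂ) (walk δ K M ω) ^ k =
        ((‖walk δ K M ω‖ ^ (2 * k) : ℝ) : ℂ) := by
      rw [← mul_pow, Complex.mul_conj, Complex.normSq_eq_norm_sq, pow_mul]
      push_cast
      rfl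
    rw [sub_mul, h2]
    push_cast
    ring
  rw [e1]
  have h3 : ∀ ω : Om K M, ‖-(((1 - ‖walk δ K M ω‖ ^ (2 * k) : ℝ) : ℂ) +
        (walk δ K M ω ^ k - JJ δ K k M ω) * (starRingEnd ℂ) (walk δ K M ω) ^ k)‖ ≤
        (ind δ (walk δ K M ω) + 2 * (k : ℝ) * δ) + ‖walk δ K M ω ^ k - JJ δ K k M ω‖ := by
    intro ω
    have hw := norm_walk_le h0.le K M ω
    have hw0 := norm_nonneg (walk δ K M ω)
    rw [norm_neg]
    refine (norm_add_le _ _).trans ?_
    have h4 : ‖((1 - ‖walk δ K M ω‖ ^ (2 * k) : ℝ) : ℂ)‖ ≤ ind δ (walk δ K M ω) + 2 * (k : ℝ) * δ := by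
      rw [Complex.norm_real, Real.norm_of_nonneg
        (by have := pow_le_one₀ (n := 2 * k) hw0 hw; linarith)]
      have hp : 0 ≤ ‖walk δ K M ω‖ ^ (2 * k) := by positivity
      have hkδ : 0 ≤ 2 * (k : ℝ) * δ := by positivity
      by_cases h : ‖walk δ K M ω‖ ≤ 1 - δ
      · have : ind δ (walk δ K M ω) = 1 := by unfold ind; rw [if_pos h]
        rw [this]
        linarith
      · have : ind δ (walk δ K M ω) = 0 := by unfold ind; rw [if_neg h]
        rw [this]
        have h5 : (1 - δ) ^ (2 * k) ≤ ‖walk δ K M ω‖ ^ (2 * k) := by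
          apply pow_le_pow_left₀ (by linarith)
          linarith
        have h6 := one_add_mul_le_pow (a := -δ) (by linarith) (2 * k)
        push_cast at h6
        have h7 : (1 : ℝ) + -δ = 1 - δ := by ring
        rw [h7] at h6
        linarith
    have h8 : ‖(walk δ K M ω ^ k - JJ δ K k M ω) * (starRingEnd ℂ) (walk δ K M ω) ^ k‖ ≤
        ‖walk δ K M ω ^ k - JJ δ K k M ω‖ := by
      rw [norm_mul, norm_pow, RCLike.norm_conj]
      have := pow_le_one₀ (n := k) hw0 hw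
      have h9 := norm_nonneg (walk δ K M ω ^ k - JJ δ K k M ω)
      nlinarith
    linarith
  calc _ ≤ _ := norm_cavg_le _
    _ ≤ _ := avg_mono h3
    _ = avg (fun ω : Om K M => ind δ (walk δ K M ω)) + 2 * (k : ℝ) * δ +
        avg (fun ω : Om K M => ‖walk δ K M ω ^ k - JJ δ K k M ω‖) := by
        rw [avg_add, avg_add, avg_const]
    _ ≤ _ := by
        have := avg_lin_one h0.le hK hk M
        linarith

theorem coef_bound (N : ℕ) (c : Fin (N + 1) → ℂ) (k : Fin (N + 1)) :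
    ‖c k‖ ≤ ∫ θ : AddCircle (1 : ℝ), ‖∑ k : Fin (N + 1), c k * fourier ((k : ℕ) : ℤ) θ‖
        ∂AddCircle.haarAddCircle := by
  have h1 : c k = ∫ θ : AddCircle (1 : ℝ), (∑ i : Fin (N + 1), c i * fourier ((i : ℕ) : ℤ) θ) *
      fourier (-((k : ℕ) : ℤ)) θ ∂AddCircle.haarAddCircle := by
    have e : ∀ θ : AddCircle (1 : ℝ), (∑ i : Fin (N + 1), c i * fourier ((i : ℕ) : ℤ) θ) *
        fourier (-((k : ℕ) : ℤ)) θ =
        ∑ i : Fin (N + 1), c i * (fourier (((i : ℕ) : ℤ) + (-((k : ℕ) : ℤ))) θ : ℂ) := by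
      intro θ
      rw [Finset.sum_mul]
      apply Finset.sum_congr rfl
      intro i _
      rw [fourier_add]
      ring
    simp only [e]
    rw [integral_finsetSum _ fun i _ => integrable_of_cont (by fun_prop)]
    simp only [integral_const_mul, int_fourier]
    rw [Finset.sum_eq_single k]
    · simp
    · intro i _ hik
      rw [if_neg]
      · simp
      · intro h
        exact hik (Fin.ext (by omega))
    · simp
  calc ‖c k‖ = ‖∫ θ : AddCircle (1 : ℝ), (∑ i : Fin (N + 1), c i * fourier ((i : ℕ) : ℤ) θ) *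
      fourier (-((k : ℕ) : ℤ)) θ ∂AddCircle.haarAddCircle‖ := by rw [← h1]
    _ ≤ _ := norm_integral_le_integral_norm _
    _ = _ := by
        congr 1
        funext θ
        rw [norm_mul, norm_fourier, mul_one]

theorem params (N : ℕ) (η : ℝ) (hη : 0 < η) : ∃ (τ δ : ℝ) (D M : ℕ), 0 < τ ∧ τ ≤ 1 / 4 ∧
    10 * ((N : ℝ) + 1) * τ ≤ η ∧ 0 < δ ∧ δ ≤ 1 ∧ N ≤ D ∧ (N : ℝ) ≤ τ * ((D : ℝ) + 1) ∧
    (2 * (N : ℝ) + (N : ℝ) ^ 2) * δ ≤ τ / 2 ∧ 2 ≤ τ * (δ ^ 2 * (M : ℝ)) := by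
  set τ : ℝ := min (1 / 4) (η / (10 * ((N : ℝ) + 1))) with hτ
  have hN : (0 : ℝ) < 10 * ((N : ℝ) + 1) := by positivity
  have hτ0 : 0 < τ := by
    rw [hτ]
    apply lt_min (by norm_num)
    positivity
  have hτ1 : τ ≤ 1 / 4 := min_le_left _ _
  have hτ2 : 10 * ((N : ℝ) + 1) * τ ≤ η := by
    have : τ ≤ η / (10 * ((N : ℝ) + 1)) := min_le_right _ _
    rw [le_div_iff₀ hN] at this
    linarith
  set δ : ℝ := τ / (2 * (2 * (N : ℝ) + (N : ℝ) ^ 2 + 1)) with hδ
  have hd : (0 : ℝ) < 2 * (2 * (N : ℝ) + (N : ℝ) ^ 2 + 1) := by positivity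
  have hδ0 : 0 < δ := by positivity
  have hδ1 : δ * (2 * (2 * (N : ℝ) + (N : ℝ) ^ 2 + 1)) = τ := by
    rw [hδ]; field_simp
  obtain ⟨D, hD⟩ := exists_nat_ge ((N : ℝ) / τ + N)
  obtain ⟨M, hM⟩ := exists_nat_ge (2 / (τ * δ ^ 2))
  refine ⟨τ, δ, D, M, hτ0, hτ1, hτ2, hδ0, ?_, ?_, ?_, ?_, ?_⟩
  · have : (0 : ℝ) ≤ 2 * (N : ℝ) + (N : ℝ) ^ 2 := by positivity
    nlinarith
  · have h1 : (0 : ℝ) ≤ (N : ℝ) / τ := by positivity
    have h2 : (N : ℝ) ≤ D := by linarith
    exact_mod_cast h2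
  · have h1 : (N : ℝ) / τ ≤ (D : ℝ) + 1 := by
      have : (0 : ℝ) ≤ N := by positivity
      linarith
    rw [div_le_iff₀ hτ0] at h1
    linarith
  · nlinarith
  · have h3 : (0 : ℝ) < τ * δ ^ 2 := by positivity
    rw [div_le_iff₀ h3] at hM
    linarith

end Walk

open Walk in
/-- one-variable polynomials are almost isometrically complemented in the walk space. -/
theorem walk_factor (N : ℕ) (η : ℝ) (hη : 0 < η) :
    ∃ M K₀ : ℕ, ∀ K ≥ K₀, ∃ (A : Fin (N + 1) → Xi K M → ℂ) (B : Xi K M → Polynomial ℂ),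
      (∀ c : Fin (N + 1) → ℂ,
        avg (fun s : Om K M => ‖∑ ξ, (∑ k, c k * A k ξ) * bet K M ξ s‖) ≤
          (1 + η) * ∫ θ : AddCircle (1 : ℝ), ‖∑ k : Fin (N + 1), c k * fourier (k : ℤ) θ‖
            ∂AddCircle.haarAddCircle) ∧
      (∀ c : Xi K M → ℂ,
        ∫ θ : AddCircle (1 : ℝ), ‖∑ ξ, c ξ * (B ξ).eval (fourier 1 θ : ℂ)‖
            ∂AddCircle.haarAddCircle ≤
          (1 + η) * avg (fun s : Om K M => ‖∑ ξ, c ξ * bet K M ξ s‖)) ∧
      (∀ k : Fin (N + 1), ∑ ξ, A k ξ • B ξ = Polynomial.X ^ (k : ℕ)) := by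
  obtain ⟨τ, δ, D, M, hτ0, hτ1, hτη, hδ0, hδ1, hND, hNτ, hδτ, hMτ⟩ := params N η hη
  refine ⟨M, D + 2, fun K hK => ?_⟩
  have hK1 : 1 < K := by omega
  have : NeZero K := ⟨by omega⟩
  -- estimates
  have hlw : ∀ k : Fin (N + 1), |1 - lw D k| ≤ τ := by
    intro k
    unfold lw
    have h1 : ((k : ℕ) : ℝ) ≤ N := by
      have := k.isLt
      exact_mod_cast (by omega : (k : ℕ) ≤ N)
    have hD : (0 : ℝ) < (D : ℝ) + 1 := by positivity
    rw [show (1 : ℝ) - (1 - ((k : ℕ) : ℝ) / ((D : ℝ) + 1)) = ((k : ℕ) : ℝ) / ((D : ℝ) + 1) by ring,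
      abs_of_nonneg (by positivity), div_le_iff₀ hD]
    linarith
  have hind : avg (fun ω : Om K M => ind δ (walk δ K M ω)) ≤ τ / 2 := by
    have h1 := avg_ind_le (δ := δ) hK1 M
    have h2 := avg_walk_sq_le (K := K) hδ0.le M
    have h3 : 0 ≤ avg (fun ω : Om K M => ind δ (walk δ K M ω)) := avg_nonneg fun _ => ind_nonneg _ _
    nlinarith
  have hkN : ∀ k : Fin (N + 1), ((k : ℕ) : ℝ) ≤ N := by
    intro k
    have := k.isLt
    exact_mod_cast (by omega : (k : ℕ) ≤ N)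
  have hkK : ∀ k : Fin (N + 1), (k : ℕ) < K := by
    intro k
    have := k.isLt
    omega
  have hk2 : ∀ k : Fin (N + 1), ((k : ℕ) : ℝ) ^ 2 ≤ (N : ℝ) ^ 2 := by
    intro k
    have := hkN k
    gcongr
  have hrho : ∀ k : Fin (N + 1), ‖rho δ K k M - 1‖ ≤ τ := by
    intro k
    have h1 := rho_close (M := M) hδ0 hδ1 hK1 (hkK k)
    have h2 := hkN k
    have h3 := hk2 k
    nlinarith
  have hlin : ∀ k : Fin (N + 1),
      avg (fun ω : Om K M => ‖walk δ K M ω ^ (k : ℕ) - JJ δ K k M ω‖) ≤ τ / 2 := by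
    intro k
    have h1 := avg_lin_one hδ0.le hK1 (hkK k) M
    have h3 := hk2 k
    have h4 : (0 : ℝ) ≤ N := by positivity
    nlinarith
  -- the product l_k rho_k
  set q : Fin (N + 1) → ℂ := fun k => (lw D k : ℂ) * rho δ K k M with hq
  have hq1 : ∀ k, ‖q k - 1‖ ≤ 9 / 4 * τ := by
    intro k
    have e : q k - 1 = (lw D k : ℂ) * (rho δ K k M - 1) - ((1 - lw D k : ℝ) : ℂ) := by
      rw [hq]; push_cast; ring
    rw [e]
    have h1 := hlw k
    have h2 := hrho k
    have h3 : |lw D k| ≤ 5 / 4 := by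
      rw [abs_le] at h1 ⊢
      constructor <;> linarith
    calc _ ≤ ‖(lw D k : ℂ) * (rho δ K k M - 1)‖ + ‖((1 - lw D k : ℝ) : ℂ)‖ := norm_sub_le _ _
      _ = |lw D k| * ‖rho δ K k M - 1‖ + |1 - lw D k| := by
          rw [norm_mul, Complex.norm_real, Complex.norm_real, Real.norm_eq_abs, Real.norm_eq_abs]
      _ ≤ 5 / 4 * τ + τ := by
          have h4 := norm_nonneg (rho δ K k M - 1)
          have h5 := abs_nonneg (lw D k)
          nlinarith
      _ = _ := by ring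
  have hq2 : ∀ k, 7 / 16 ≤ ‖q k‖ := by
    intro k
    have h1 := hq1 k
    have h2 : 1 ≤ ‖q k‖ + ‖q k - 1‖ := by
      calc (1 : ℝ) = ‖q k - (q k - 1)‖ := by simp
        _ ≤ _ := norm_sub_le _ _
    linarith
  have hq0 : ∀ k, q k ≠ 0 := by
    intro k h
    have := hq2 k
    rw [h, norm_zero] at this
    norm_num at this
  have hα : ∀ k, ‖(q k)⁻¹‖ ≤ 16 / 7 := by
    intro k
    rw [norm_inv]
    have := hq2 k
    rw [inv_le_comm₀ (by linarith) (by norm_num)]
    linarith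
  have hα1 : ∀ k, ‖(q k)⁻¹ - (lw D k : ℂ)‖ ≤ 7 * τ := by
    intro k
    have e : (q k)⁻¹ - (lw D k : ℂ) = (q k)⁻¹ * (-(q k - 1)) + ((1 - lw D k : ℝ) : ℂ) := by
      push_cast
      have := hq0 k
      field_simp
      ring
    rw [e]
    calc _ ≤ ‖(q k)⁻¹ * (-(q k - 1))‖ + ‖((1 - lw D k : ℝ) : ℂ)‖ := norm_add_le _ _
      _ = ‖(q k)⁻¹‖ * ‖q k - 1‖ + |1 - lw D k| := by
          rw [norm_mul, norm_neg, Complex.norm_real, Real.norm_eq_abs]
      _ ≤ 16 / 7 * (9 / 4 * τ) + τ := by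
          have h1 := hα k
          have h2 := hq1 k
          have h3 := hlw k
          have h4 := norm_nonneg (q k - 1)
          have h5 := norm_nonneg (q k)⁻¹
          nlinarith
      _ ≤ _ := by linarith
  refine ⟨fun k ξ => (q k)⁻¹ * Jc δ K k M ξ, fun ξ => ∑ j ∈ Finset.range (D + 1),
    Polynomial.C ((lw D j : ℂ) * cavg (fun ω => bet K M ξ ω *
      (starRingEnd ℂ) (walk δ K M ω) ^ j)) * Polynomial.X ^ j, ?_, ?_, ?_⟩
  · intro c
    have e1 : ∀ ω : Om K M, ∑ ξ, (∑ k, c k * ((q k)⁻¹ * Jc δ K k M ξ)) * bet K M ξ ω =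
        ∑ k : Fin (N + 1), c k * ((lw D k : ℂ) * walk δ K M ω ^ (k : ℕ)) +
        ∑ k : Fin (N + 1), c k * ((q k)⁻¹ * JJ δ K k M ω - (lw D k : ℂ) * walk δ K M ω ^ (k : ℕ)) := by
      intro ω
      rw [← Finset.sum_add_distrib]
      simp only [Finset.sum_mul]
      rw [Finset.sum_comm]
      apply Finset.sum_congr rfl
      intro k _
      unfold JJ
      rw [show c k * ((lw D k : ℂ) * walk δ K M ω ^ (k : ℕ)) + c k * ((q k)⁻¹ *
        (∑ ξ, Jc δ K k M ξ * bet K M ξ ω) - (lw D k : ℂ) * walk δ K M ω ^ (k : ℕ)) =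
        c k * ((q k)⁻¹ * (∑ ξ, Jc δ K k M ξ * bet K M ξ ω)) by ring]
      rw [Finset.mul_sum, Finset.mul_sum]
      apply Finset.sum_congr rfl
      intro ξ _
      ring
    simp only [e1]
    set I := ∫ θ : AddCircle (1 : ℝ), ‖∑ k : Fin (N + 1), c k * fourier ((k : ℕ) : ℤ) θ‖
            ∂AddCircle.haarAddCircle with hI
    have h1 : avg (fun ω : Om K M => ‖∑ k : Fin (N + 1), c k *
        ((lw D k : ℂ) * walk δ K M ω ^ (k : ℕ))‖) ≤ I := smooth_bound hδ0.le hND (by omega) c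
    have h2 : ∀ k : Fin (N + 1), avg (fun ω : Om K M => ‖c k * ((q k)⁻¹ * JJ δ K k M ω -
        (lw D k : ℂ) * walk δ K M ω ^ (k : ℕ))‖) ≤ 10 * τ * I := by
      intro k
      have h3 : ∀ ω : Om K M, ‖c k * ((q k)⁻¹ * JJ δ K k M ω -
          (lw D k : ℂ) * walk δ K M ω ^ (k : ℕ))‖ ≤ ‖c k‖ * (7 * τ + 16 / 7 *
            ‖walk δ K M ω ^ (k : ℕ) - JJ δ K k M ω‖) := by
        intro ω
        rw [norm_mul]
        gcongr
        have e2 : (q k)⁻¹ * JJ δ K k M ω - (lw D k : ℂ) * walk δ K M ω ^ (k : ℕ) =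
            ((q k)⁻¹ - (lw D k : ℂ)) * walk δ K M ω ^ (k : ℕ) -
              (q k)⁻¹ * (walk δ K M ω ^ (k : ℕ) - JJ δ K k M ω) := by ring
        rw [e2]
        refine (norm_sub_le _ _).trans ?_
        rw [norm_mul, norm_mul, norm_pow]
        have h4 := pow_le_one₀ (n := (k : ℕ)) (norm_nonneg (walk δ K M ω))
          (norm_walk_le hδ0.le K M ω)
        have h5 := hα1 k
        have h6 := hα k
        have h7 := norm_nonneg ((q k)⁻¹ - (lw D k : ℂ))
        have h8 := norm_nonneg (q k)⁻¹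
        have h9 := norm_nonneg (walk δ K M ω ^ (k : ℕ) - JJ δ K k M ω)
        have h10 : 0 ≤ ‖walk δ K M ω‖ ^ (k : ℕ) := by positivity
        nlinarith
      have hc := coef_bound N c k
      have h4 : 0 ≤ I := (norm_nonneg _).trans hc
      calc _ ≤ _ := avg_mono h3
        _ = ‖c k‖ * (7 * τ + 16 / 7 * avg (fun ω : Om K M =>
              ‖walk δ K M ω ^ (k : ℕ) - JJ δ K k M ω‖)) := by
            rw [avg_mul_left, avg_add, avg_const, avg_mul_left]
        _ ≤ ‖c k‖ * (10 * τ) := by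
            have := hlin k
            gcongr
            linarith
        _ ≤ I * (10 * τ) := by gcongr
        _ = _ := by ring
    have h5 : 0 ≤ I := (norm_nonneg _).trans (coef_bound N c 0)
    calc _ ≤ avg (fun ω : Om K M => ‖∑ k : Fin (N + 1), c k *
          ((lw D k : ℂ) * walk δ K M ω ^ (k : ℕ))‖ +
          ∑ k : Fin (N + 1), ‖c k * ((q k)⁻¹ * JJ δ K k M ω -
            (lw D k : ℂ) * walk δ K M ω ^ (k : ℕ))‖) := by
          apply avg_mono
          intro ω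
          refine (norm_add_le _ _).trans ?_
          gcongr
          exact norm_sum_le _ _
      _ = avg (fun ω : Om K M => ‖∑ k : Fin (N + 1), c k *
          ((lw D k : ℂ) * walk δ K M ω ^ (k : ℕ))‖) +
          ∑ k : Fin (N + 1), avg (fun ω : Om K M => ‖c k * ((q k)⁻¹ * JJ δ K k M ω -
            (lw D k : ℂ) * walk δ K M ω ^ (k : ℕ))‖) := by
          rw [avg_add, avg_finset_sum]
      _ ≤ I + ∑ _k : Fin (N + 1), 10 * τ * I := by
          gcongr with k
          exact h2 k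
      _ = I + ((N : ℝ) + 1) * (10 * τ * I) := by
          rw [Finset.sum_const, Finset.card_univ, Fintype.card_fin, nsmul_eq_mul]
          push_cast
          ring
      _ ≤ (1 + η) * I := by nlinarith
  · intro c
    set G : Om K M → ℂ := fun ω => ∑ ξ, c ξ * bet K M ξ ω with hG
    have e1 : ∀ θ : AddCircle (1 : ℝ), ∑ ξ, c ξ * Polynomial.eval (fourier 1 θ : ℂ)
        (∑ j ∈ Finset.range (D + 1), Polynomial.C ((lw D j : ℂ) * cavg (fun ω => bet K M ξ ω *
          (starRingEnd ℂ) (walk δ K M ω) ^ j)) * Polynomial.X ^ j) =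
        ∑ j ∈ Finset.range (D + 1), (lw D j : ℂ) *
        cavg (fun ω => G ω * (starRingEnd ℂ) (walk δ K M ω) ^ j) * fourier 1 θ ^ j := by
      intro θ
      simp only [Polynomial.eval_finsetSum, Polynomial.eval_mul, Polynomial.eval_C,
        Polynomial.eval_pow, Polynomial.eval_X, Finset.mul_sum]
      rw [Finset.sum_comm]
      apply Finset.sum_congr rfl
      intro j _
      rw [← sum_cavg c, Finset.mul_sum, Finset.sum_mul]
      apply Finset.sum_congr rfl
      intro ξ _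
      ring
    simp only [e1]
    have h1 := B_bound (D := D) hδ0.le G (by
      intro j hj1 hj2
      rw [hG, ← sum_cavg c]
      apply Finset.sum_eq_zero
      intro ξ _
      rw [cavg_bet_walk_pow hj1 (by omega) M ξ, mul_zero])
    refine h1.trans ?_
    have h2 : 0 ≤ avg (fun ω => ‖G ω‖) := avg_nonneg fun _ => norm_nonneg _
    nlinarith
  · intro k
    have e1 : ∑ ξ, ((q k)⁻¹ * Jc δ K k M ξ) • (∑ j ∈ Finset.range (D + 1),
        Polynomial.C ((lw D j : ℂ) * cavg (fun ω => bet K M ξ ω *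
          (starRingEnd ℂ) (walk δ K M ω) ^ j)) * Polynomial.X ^ j) =
        ∑ j ∈ Finset.range (D + 1), Polynomial.C ((q k)⁻¹ * ((lw D j : ℂ) *
          cavg (fun ω => JJ δ K k M ω * (starRingEnd ℂ) (walk δ K M ω) ^ j))) *
            Polynomial.X ^ j := by
      simp only [Finset.smul_sum]
      rw [Finset.sum_comm]
      apply Finset.sum_congr rfl
      intro j _
      unfold JJ
      rw [← sum_cavg, Finset.mul_sum, Finset.mul_sum, map_sum, Finset.sum_mul]
      apply Finset.sum_congr rfl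
      intro ξ _
      rw [Polynomial.smul_eq_C_mul, ← mul_assoc, ← Polynomial.C_mul]
      congr 2
      ring
    rw [e1, Finset.sum_eq_single (k : ℕ)]
    · have h1 : (q k)⁻¹ * ((lw D k : ℂ) * cavg (fun ω => JJ δ K k M ω *
          (starRingEnd ℂ) (walk δ K M ω) ^ (k : ℕ))) = 1 := by
        have : (lw D k : ℂ) * cavg (fun ω => JJ δ K k M ω *
          (starRingEnd ℂ) (walk δ K M ω) ^ (k : ℕ)) = q k := rfl
        rw [this]
        exact inv_mul_cancel₀ (hq0 k)
      rw [h1]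
      simp
    · intro j hj hjk
      rw [cavg_JJ_walk (hkK k) (by have := Finset.mem_range.1 hj; omega) (Ne.symm hjk)]
      simp
    · intro h
      exact absurd (Finset.mem_range.2 (by have := k.isLt; omega)) h

end HBasis
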