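import Pool.Agent.HBasis.Defs

open MeasureTheory Filter Topology

namespace HBasis

namespace Walk

/-! ### averages -/

theorem avg_prod {α β : Type*} [Fintype α] [Fintype β] (f : α × β → ℝ) :
    avg f = avg (fun a => avg (fun b => f (a, b))) := by
  unfold avg
  rw [Fintype.sum_prod_type, Fintype.card_prod, ← Finset.sum_div, Nat.cast_mul, div_div, mul_comm]

theorem cavg_prod {α β : Type*} [Fintype α] [Fintype β] (f : α × β → ℂ) :
    cavg f = cavg (fun a => cavg (fun b => f (a, b))) := by
  unfold cavg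
  rw [Fintype.sum_prod_type, Fintype.card_prod, ← Finset.sum_div, Nat.cast_mul, div_div, mul_comm]

theorem avg_mono {α : Type*} [Fintype α] {f g : α → ℝ} (h : ∀ a, f a ≤ g a) : avg f ≤ avg g := by
  unfold avg
  gcongr with a
  exact h a

theorem avg_nonneg {α : Type*} [Fintype α] {f : α → ℝ} (h : ∀ a, 0 ≤ f a) : 0 ≤ avg f := by
  unfold avg
  exact div_nonneg (Finset.sum_nonneg fun a _ => h a) (by positivity)

theorem avg_add {α : Type*} [Fintype α] (f g : α → ℝ) :
    avg (fun a => f a + g a) = avg f + avg g := by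
  unfold avg
  rw [Finset.sum_add_distrib, add_div]

theorem avg_sub {α : Type*} [Fintype α] (f g : α → ℝ) :
    avg (fun a => f a - g a) = avg f - avg g := by
  unfold avg
  rw [Finset.sum_sub_distrib, sub_div]

theorem avg_mul_left {α : Type*} [Fintype α] (c : ℝ) (f : α → ℝ) :
    avg (fun a => c * f a) = c * avg f := by
  unfold avg
  rw [← Finset.mul_sum, mul_div_assoc]

theorem avg_const {α : Type*} [Fintype α] [Nonempty α] (c : ℝ) :
    avg (fun _ : α => c) = c := by
  unfold avg
  have : (Fintype.card α : ℝ) ≠ 0 := by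
    exact_mod_cast Fintype.card_ne_zero
  simp only [Finset.sum_const, Finset.card_univ, nsmul_eq_mul]
  field_simp

theorem cavg_const {α : Type*} [Fintype α] [Nonempty α] (c : ℂ) :
    cavg (fun _ : α => c) = c := by
  unfold cavg
  have : (Fintype.card α : ℂ) ≠ 0 := by
    exact_mod_cast Fintype.card_ne_zero
  simp only [Finset.sum_const, Finset.card_univ, nsmul_eq_mul]
  field_simp

theorem avg_finset_sum {α ι : Type*} [Fintype α] (t : Finset ι) (f : ι → α → ℝ) :
    avg (fun a => ∑ i ∈ t, f i a) = ∑ i ∈ t, avg (f i) := by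
  unfold avg
  rw [Finset.sum_comm, Finset.sum_div]

theorem cavg_finset_sum {α ι : Type*} [Fintype α] (t : Finset ι) (f : ι → α → ℂ) :
    cavg (fun a => ∑ i ∈ t, f i a) = ∑ i ∈ t, cavg (f i) := by
  unfold cavg
  rw [Finset.sum_comm, Finset.sum_div]

theorem cavg_mul_left {α : Type*} [Fintype α] (c : ℂ) (f : α → ℂ) :
    cavg (fun a => c * f a) = c * cavg f := by
  unfold cavg
  rw [← Finset.mul_sum, mul_div_assoc]

theorem cavg_add {α : Type*} [Fintype α] (f g : α → ℂ) :
    cavg (fun a => f a + g a) = cavg f + cavg g := by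
  unfold cavg
  rw [Finset.sum_add_distrib, add_div]

theorem cavg_sub {α : Type*} [Fintype α] (f g : α → ℂ) :
    cavg (fun a => f a - g a) = cavg f - cavg g := by
  unfold cavg
  rw [Finset.sum_sub_distrib, sub_div]

theorem norm_cavg_le {α : Type*} [Fintype α] (f : α → ℂ) :
    ‖cavg f‖ ≤ avg (fun a => ‖f a‖) := by
  unfold cavg avg
  rw [norm_div, Complex.norm_natCast]
  gcongr
  exact norm_sum_le _ _

theorem cavg_re {α : Type*} [Fintype α] (f : α → ℂ) :
    (cavg f).re = avg (fun a => (f a).re) := by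
  unfold cavg avg
  rw [Complex.div_natCast_re, Complex.re_sum]

theorem cavg_conj {α : Type*} [Fintype α] (f : α → ℂ) :
    (starRingEnd ℂ) (cavg f) = cavg (fun a => (starRingEnd ℂ) (f a)) := by
  unfold cavg
  rw [map_div₀, map_sum, map_natCast]

theorem cavg_ofReal {α : Type*} [Fintype α] (f : α → ℝ) :
    cavg (fun a => (f a : ℂ)) = ((avg f : ℝ) : ℂ) := by
  unfold cavg avg
  push_cast
  rfl

theorem avg_sq_le {α : Type*} [Fintype α] (f : α → ℝ) :
    avg f ≤ Real.sqrt (avg (fun a => f a ^ 2)) := by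
  apply Real.le_sqrt_of_sq_le
  unfold avg
  rcases isEmpty_or_nonempty α with h | h
  · simp
  · have hc : (0 : ℝ) < Fintype.card α := by exact_mod_cast Fintype.card_pos
    rw [div_pow, div_le_div_iff₀ (by positivity) hc]
    have := sq_sum_le_card_mul_sum_sq (s := (Finset.univ : Finset α)) (f := f)
    rw [Finset.card_univ] at this
    nlinarith

/-! ### roots of unity -/

theorem rt_eq (K : ℕ) (a : Fin K) :
    rt K a = Complex.exp (2 * Real.pi * Complex.I / (K : ℂ)) ^ (a : ℕ) := by
  unfold rt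
  rw [← Complex.exp_nat_mul]
  congr 1
  ring

theorem norm_rt (K : ℕ) (a : Fin K) : ‖rt K a‖ = 1 := by
  unfold rt
  have : (2 * Real.pi * Complex.I * ((a : ℕ) : ℂ) / (K : ℂ)) =
      ((2 * Real.pi * (a : ℕ) / K : ℝ) : ℂ) * Complex.I := by
    push_cast
    ring
  rw [this, Complex.norm_exp_ofReal_mul_I]

theorem sum_rt_pow {K : ℕ} {j : ℕ} (hj : j < K) :
    ∑ s : Fin K, rt K s ^ j = if j = 0 then (K : ℂ) else 0 := by
  have hK : K ≠ 0 := by omega
  split_ifs with h
  · subst h; simp
  · have hp := Complex.isPrimitiveRoot_exp K hK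
    set ζ := Complex.exp (2 * Real.pi * Complex.I / (K : ℂ)) with hζ
    have h1 : ∀ s : Fin K, rt K s ^ j = (ζ ^ j) ^ (s : ℕ) := by
      intro s
      rw [rt_eq, ← hζ, ← pow_mul, ← pow_mul, mul_comm j]
    rw [Finset.sum_congr rfl fun s _ => h1 s, Fin.sum_univ_eq_sum_range (fun i => (ζ ^ j) ^ i) K]
    have h2 : ζ ^ j ≠ 1 := by
      intro h3
      exact h (Nat.eq_zero_of_dvd_of_lt (hp.dvd_of_pow_eq_one j h3) hj)
    have h4 := mul_geom_sum (ζ ^ j) K
    have h5 : (ζ ^ j) ^ K = 1 := by
      rw [← pow_mul, mul_comm, pow_mul, hp.pow_eq_one, one_pow]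
    rw [h5, sub_self] at h4
    rcases mul_eq_zero.1 h4 with h6 | h6
    · exact absurd (sub_eq_zero.1 h6) h2
    · exact h6

theorem moment (K : ℕ) (x d : ℂ) : ∀ k j : ℕ, j + k < K →
    ∑ s : Fin K, rt K s ^ j * (x + d * rt K s) ^ k = if j = 0 then (K : ℂ) * x ^ k else 0
  | 0, j, h => by
      simp only [pow_zero, mul_one]
      exact sum_rt_pow (by omega)
  | (k + 1), j, h => by
      have h1 := moment K x d k j (by omega)
      have h2 := moment K x d k (j + 1) (by omega)
      have h3 : ∀ s : Fin K, rt K s ^ j * (x + d * rt K s) ^ (k + 1) =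
          x * (rt K s ^ j * (x + d * rt K s) ^ k) +
          d * (rt K s ^ (j + 1) * (x + d * rt K s) ^ k) := by
        intro s; ring
      rw [Finset.sum_congr rfl fun s _ => h3 s, Finset.sum_add_distrib, ← Finset.mul_sum,
        ← Finset.mul_sum, h1, h2]
      simp only [Nat.add_eq_zero_iff, one_ne_zero, and_false, if_false, mul_zero, add_zero]
      split_ifs
      · ring
      · ring

theorem cavg_moment {K : ℕ} (x d : ℂ) {k j : ℕ} (h : j + k < K) :
    cavg (fun s : Fin K => rt K s ^ j * (x + d * rt K s) ^ k) = if j = 0 then x ^ k else 0 := by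
  have hK : (K : ℂ) ≠ 0 := by
    have : K ≠ 0 := by omega
    exact_mod_cast this
  unfold cavg
  rw [moment K x d k j h, Fintype.card_fin]
  split_ifs
  · field_simp
  · simp

theorem cavg_moment_zero {K : ℕ} (x d : ℂ) {k : ℕ} (h : k < K) :
    cavg (fun s : Fin K => (x + d * rt K s) ^ k) = x ^ k := by
  have := cavg_moment (K := K) x d (k := k) (j := 0) (by omega)
  simpa using this

theorem cavg_rt {K : ℕ} (h : 1 < K) : cavg (fun s : Fin K => rt K s) = 0 := by
  have := cavg_moment (K := K) 0 0 (k := 0) (j := 1) (by omega)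
  simpa using this

end Walk

end HBasis
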