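import Pool.Agent.HBasis.XSpace

set_option autoImplicit false

open MeasureTheory Finset

namespace HBasis

namespace L1Sum

/-- forget the zeroth exponent. -/
noncomputable def shiftF (ν : ℕ →₀ ℕ) : ℕ →₀ ℕ :=
  ν.comapDomain Nat.succ (Nat.succ_injective.injOn)

theorem shiftF_apply (ν : ℕ →₀ ℕ) (i : ℕ) : shiftF ν i = ν (i + 1) := rfl

theorem prod_split (ν : ℕ →₀ ℕ) (f : ℕ → ℂ) :
    (ν.prod fun i k => f i ^ k) = f 0 ^ ν 0 * ((shiftF ν).prod fun i k => f (i + 1) ^ k) := by
  obtain ⟨N, hN⟩ : ∃ N : ℕ, ν.support ⊆ range (N + 1) := by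
    refine ⟨ν.support.sup id, fun i hi => ?_⟩
    rw [mem_range]
    exact Nat.lt_succ_of_le (Finset.le_sup (f := id) hi)
  have h1 : (shiftF ν).support ⊆ range N := by
    intro i hi
    rw [Finsupp.mem_support_iff, shiftF_apply] at hi
    have := hN (Finsupp.mem_support_iff.2 hi)
    rw [mem_range] at this ⊢
    omega
  rw [Finsupp.prod_of_support_subset ν hN _ (by simp),
    Finsupp.prod_of_support_subset (shiftF ν) h1 _ (by simp), prod_range_succ', mul_comm]
  rfl

/-- the product system: one variable split off. -/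
noncomputable def w2 (x : AddCircle (1 : ℝ) × (ℕ → AddCircle (1 : ℝ))) (i : ℕ) : ℂ :=
  match i with
  | 0 => fourier 1 x.1
  | (j + 1) => wv x.2 j

/-- Haar measure on the circle. -/
noncomputable abbrev hc : Measure (AddCircle (1 : ℝ)) := AddCircle.haarAddCircle

theorem w2_prod (x : AddCircle (1 : ℝ) × (ℕ → AddCircle (1 : ℝ))) (ν : ℕ →₀ ℕ) :
    (ν.prod fun i k => w2 x i ^ k) =
      fourier (ν 0 : ℤ) x.1 * ((shiftF ν).prod fun i k => wv x.2 i ^ k) := by
  rw [prod_split ν (w2 x)]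
  congr 1
  exact wv_pow (fun _ => x.1) 0 (ν 0)

theorem isSteinhaus_w2 : IsSteinhaus (hc.prod mInf) w2 where
  meas i := by
    rcases i with _ | j
    · exact (fourier 1).continuous.measurable.comp measurable_fst
    · exact (isSteinhaus_wv.meas j).comp measurable_snd
  norm_one x i := by
    rcases i with _ | j
    · change ‖(fourier 1 x.1 : ℂ)‖ = 1
      rw [fourier_one]; exact Circle.norm_coe _
    · exact isSteinhaus_wv.norm_one x.2 j
  orth ν ν' hne := by
    have e1 : ∀ x : AddCircle (1 : ℝ) × (ℕ → AddCircle (1 : ℝ)),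
        (ν.prod fun i k => w2 x i ^ k) * (starRingEnd ℂ) (ν'.prod fun i k => w2 x i ^ k) =
        fourier ((ν 0 : ℤ) + (-(ν' 0 : ℤ))) x.1 * (((shiftF ν).prod fun i k => wv x.2 i ^ k) *
          (starRingEnd ℂ) ((shiftF ν').prod fun i k => wv x.2 i ^ k)) := by
      intro x
      rw [w2_prod, w2_prod, map_mul, ← fourier_neg, fourier_add]
      ring
    simp only [e1]
    rw [integral_prod_mul (fun t : AddCircle (1 : ℝ) => (fourier ((ν 0 : ℤ) + (-(ν' 0 : ℤ))) t : ℂ))
      (fun θ : ℕ → AddCircle (1 : ℝ) => ((shiftF ν).prod fun i k => wv θ i ^ k) *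
          (starRingEnd ℂ) ((shiftF ν').prod fun i k => wv θ i ^ k))]
    by_cases h0 : ν 0 = ν' 0
    · have hs : shiftF ν ≠ shiftF ν' := by
        intro h
        apply hne
        ext i
        rcases i with _ | j
        · exact h0
        · exact DFunLike.congr_fun h j
      rw [isSteinhaus_wv.orth _ _ hs, mul_zero]
    · rw [integral_fourier, if_neg (by omega), zero_mul]

theorem pnorm_eq (p : MvPolynomial ℕ ℂ) :
    ∫ x, ‖MvPolynomial.eval (w2 x) p‖ ∂(hc.prod mInf) = pnorm p :=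
  isSteinhaus_w2.integral_norm_eval p

theorem eval_w2_rename (x : AddCircle (1 : ℝ) × (ℕ → AddCircle (1 : ℝ))) (p : MvPolynomial ℕ ℂ) :
    MvPolynomial.eval (w2 x) (MvPolynomial.rename Nat.succ p) = MvPolynomial.eval (wv x.2) p := by
  rw [MvPolynomial.eval_rename]
  rfl

theorem eval_w2_aeval (x : AddCircle (1 : ℝ) × (ℕ → AddCircle (1 : ℝ))) (ψ : Polynomial ℂ) :
    MvPolynomial.eval (w2 x) (Polynomial.aeval (MvPolynomial.X 0 : MvPolynomial ℕ ℂ) ψ) =
      ψ.eval (fourier 1 x.1 : ℂ) := by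
  rw [Polynomial.aeval_def, Polynomial.hom_eval₂]
  have : (MvPolynomial.eval (w2 x)).comp (algebraMap ℂ (MvPolynomial ℕ ℂ)) = RingHom.id ℂ := by
    ext z
    · simp [MvPolynomial.algebraMap_eq]
  rw [this, Polynomial.eval₂_id, MvPolynomial.eval_X]
  rfl

/-- multiply by a polynomial in a new variable. -/
noncomputable def Mu (ψ : Polynomial ℂ) : MvPolynomial ℕ ℂ →ₗ[ℂ] MvPolynomial ℕ ℂ :=
  (LinearMap.mulLeft ℂ (Polynomial.aeval (MvPolynomial.X 0 : MvPolynomial ℕ ℂ) ψ)).comp
    (MvPolynomial.rename Nat.succ).toLinearMap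

theorem eval_Mu (x : AddCircle (1 : ℝ) × (ℕ → AddCircle (1 : ℝ))) (ψ : Polynomial ℂ)
    (p : MvPolynomial ℕ ℂ) : MvPolynomial.eval (w2 x) (Mu ψ p) =
      ψ.eval (fourier 1 x.1 : ℂ) * MvPolynomial.eval (wv x.2) p := by
  unfold Mu
  simp only [LinearMap.comp_apply, LinearMap.mulLeft_apply, AlgHom.toLinearMap_apply, map_mul]
  rw [eval_w2_aeval, eval_w2_rename]

theorem pnorm_Mu (ψ : Polynomial ℂ) (p : MvPolynomial ℕ ℂ) :
    pnorm (Mu ψ p) = (∫ t, ‖ψ.eval (fourier 1 t : ℂ)‖ ∂hc) * pnorm p := by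
  rw [← pnorm_eq]
  simp only [eval_Mu, norm_mul]
  rw [integral_prod_mul (fun t : AddCircle (1 : ℝ) => ‖ψ.eval (fourier 1 t : ℂ)‖)
    (fun θ : ℕ → AddCircle (1 : ℝ) => ‖MvPolynomial.eval (wv θ) p‖)]
  rfl

/-- integrate out the zeroth variable over a set. -/
noncomputable def Jp (I : Set (AddCircle (1 : ℝ))) (d : ℕ) :
    MvPolynomial ℕ ℂ →ₗ[ℂ] MvPolynomial ℕ ℂ :=
  (MvPolynomial.basisMonomials ℕ ℂ).constr ℂ (fun ν => MvPolynomial.monomial (shiftF ν)
    (∫ t in I, (fourier (-(d : ℤ)) t * fourier (ν 0 : ℤ) t : ℂ) ∂hc))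

theorem Jp_monomial (I : Set (AddCircle (1 : ℝ))) (d : ℕ) (ν : ℕ →₀ ℕ) :
    Jp I d (MvPolynomial.monomial ν 1) = MvPolynomial.monomial (shiftF ν)
    (∫ t in I, (fourier (-(d : ℤ)) t * fourier (ν 0 : ℤ) t : ℂ) ∂hc) := by
  have := (MvPolynomial.basisMonomials ℕ ℂ).constr_basis ℂ (fun ν => MvPolynomial.monomial (shiftF ν)
    (∫ t in I, (fourier (-(d : ℤ)) t * fourier (ν 0 : ℤ) t : ℂ) ∂hc)) ν
  rw [MvPolynomial.coe_basisMonomials] at this
  exact this

theorem continuous_eval_w2 (p : MvPolynomial ℕ ℂ) (θ : ℕ → AddCircle (1 : ℝ)) :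
    Continuous fun t : AddCircle (1 : ℝ) => MvPolynomial.eval (w2 (t, θ)) p := by
  have h : Continuous fun x : ℕ → ℂ => MvPolynomial.eval x p :=
    MvPolynomial.continuous_eval (σ := ℕ) (X := ℂ) p
  have h2 : Continuous fun t : AddCircle (1 : ℝ) => w2 (t, θ) := by
    refine continuous_pi fun i => ?_
    rcases i with _ | j
    · have h3 : Continuous fun t : AddCircle (1 : ℝ) => (fourier 1 t : ℂ) :=
        (fourier (T := (1 : ℝ)) 1).continuous
      exact h3
    · have h3 : Continuous fun _ : AddCircle (1 : ℝ) => wv θ j := continuous_const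
      exact h3
  exact h.comp h2

theorem eval_Jp (I : Set (AddCircle (1 : ℝ))) (d : ℕ) (p : MvPolynomial ℕ ℂ)
    (θ : ℕ → AddCircle (1 : ℝ)) : MvPolynomial.eval (wv θ) (Jp I d p) =
      ∫ t in I, fourier (-(d : ℤ)) t * MvPolynomial.eval (w2 (t, θ)) p ∂hc := by
  have hi : ∀ q : MvPolynomial ℕ ℂ, Integrable (fun t : AddCircle (1 : ℝ) =>
      fourier (-(d : ℤ)) t * MvPolynomial.eval (w2 (t, θ)) q) (hc.restrict I) := by
    intro q
    apply Integrable.restrict
    exact ((fourier (-(d : ℤ))).continuous.mul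
      (continuous_eval_w2 q θ)).integrable_of_hasCompactSupport (HasCompactSupport.of_compactSpace _)
  induction p using MvPolynomial.induction_on' with
  | monomial ν a =>
    have h1 : (MvPolynomial.monomial ν a : MvPolynomial ℕ ℂ) = a • MvPolynomial.monomial ν 1 := by
      rw [MvPolynomial.smul_monomial, smul_eq_mul, mul_one]
    rw [h1, map_smul, Jp_monomial, MvPolynomial.smul_eval, MvPolynomial.eval_monomial]
    simp only [MvPolynomial.smul_eval, MvPolynomial.eval_monomial, one_mul]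
    have h2 : ∀ t : AddCircle (1 : ℝ), (fourier (-(d : ℤ)) t : ℂ) *
        (a * ν.prod fun i k => w2 (t, θ) i ^ k) =
        (a * ((shiftF ν).prod fun i k => wv θ i ^ k)) *
          (fourier (-(d : ℤ)) t * fourier (ν 0 : ℤ) t : ℂ) := by
      intro t
      rw [w2_prod]
      ring
    simp only [h2]
    rw [integral_const_mul]
    ring
  | add p q hp hq =>
    rw [map_add, map_add, hp, hq, ← integral_add (hi p) (hi q)]
    congr 1
    funext t
    rw [map_add, mul_add]

theorem integrable_w2 (p : MvPolynomial ℕ ℂ) :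
    Integrable (fun x => ‖MvPolynomial.eval (w2 x) p‖) (hc.prod mInf) := by
  apply Integrable.norm
  exact Integrable.of_bound (isSteinhaus_w2.meas_eval p).aestronglyMeasurable _
    (Filter.Eventually.of_forall (isSteinhaus_w2.norm_eval_le p))

theorem integrable_slice (p : MvPolynomial ℕ ℂ) (θ : ℕ → AddCircle (1 : ℝ)) :
    Integrable (fun t => ‖MvPolynomial.eval (w2 (t, θ)) p‖) hc :=
  (continuous_eval_w2 p θ).norm.integrable_of_hasCompactSupport (HasCompactSupport.of_compactSpace _)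

theorem integrable_slice_int (I : Set (AddCircle (1 : ℝ))) (p : MvPolynomial ℕ ℂ) :
    Integrable (fun θ => ∫ t in I, ‖MvPolynomial.eval (w2 (t, θ)) p‖ ∂hc) mInf := by
  have h : Integrable (fun x => ‖MvPolynomial.eval (w2 x) p‖) ((hc.restrict I).prod mInf) := by
    apply Integrable.norm
    exact Integrable.of_bound (isSteinhaus_w2.meas_eval p).aestronglyMeasurable _
      (Filter.Eventually.of_forall (isSteinhaus_w2.norm_eval_le p))
  exact h.integral_prod_right

theorem pnorm_Jp_le (I : Set (AddCircle (1 : ℝ))) (d : ℕ) (p : MvPolynomial ℕ ℂ) :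
    pnorm (Jp I d p) ≤ ∫ θ, ∫ t in I, ‖MvPolynomial.eval (w2 (t, θ)) p‖ ∂hc ∂mInf := by
  unfold pnorm
  apply integral_mono_of_nonneg
  · exact Filter.Eventually.of_forall fun _ => norm_nonneg _
  · exact integrable_slice_int I p
  · refine Filter.Eventually.of_forall fun θ => ?_
    change ‖MvPolynomial.eval (wv θ) (Jp I d p)‖ ≤ _
    rw [eval_Jp]
    refine (norm_integral_le_integral_norm _).trans (le_of_eq ?_)
    congr 1
    funext t
    rw [norm_mul, fourier_apply, Circle.norm_coe, one_mul]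

theorem sum_pnorm_Jp_le (I : ℕ → Set (AddCircle (1 : ℝ))) (hI : ∀ n, MeasurableSet (I n))
    (hd : Pairwise (Function.onFun Disjoint I)) (d : ℕ → ℕ) (p : MvPolynomial ℕ ℂ) (s : Finset ℕ) :
    ∑ n ∈ s, pnorm (Jp (I n) (d n) p) ≤ pnorm p := by
  calc ∑ n ∈ s, pnorm (Jp (I n) (d n) p) ≤
      ∑ n ∈ s, ∫ θ, ∫ t in I n, ‖MvPolynomial.eval (w2 (t, θ)) p‖ ∂hc ∂mInf :=
        Finset.sum_le_sum fun n _ => pnorm_Jp_le (I n) (d n) p
    _ = ∫ θ, ∑ n ∈ s, ∫ t in I n, ‖MvPolynomial.eval (w2 (t, θ)) p‖ ∂hc ∂mInf := by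
        rw [integral_finsetSum _ fun n _ => integrable_slice_int (I n) p]
    _ ≤ ∫ θ, ∫ t, ‖MvPolynomial.eval (w2 (t, θ)) p‖ ∂hc ∂mInf := by
        apply integral_mono_of_nonneg
        · refine Filter.Eventually.of_forall fun θ => ?_
          exact Finset.sum_nonneg fun n _ => integral_nonneg fun _ => norm_nonneg _
        · exact (integrable_w2 p).integral_prod_right
        · refine Filter.Eventually.of_forall fun θ => ?_
          change ∑ n ∈ s, ∫ t in I n, ‖MvPolynomial.eval (w2 (t, θ)) p‖ ∂hc ≤ _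
          rw [← integral_biUnion_finset s (fun n _ => hI n)
            (fun i _ j _ hij => hd hij) (fun n _ => (integrable_slice p θ).integrableOn)]
          exact setIntegral_le_integral (integrable_slice p θ)
            (Filter.Eventually.of_forall fun _ => norm_nonneg _)
    _ = pnorm p := by
        rw [← pnorm_eq, integral_prod_symm _ (integrable_w2 p)]

end L1Sum

end HBasis
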