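import Pool.Agent.Helper36.HBasis.L1A

set_option autoImplicit false

open MeasureTheory Finset

namespace HBasis

namespace L1Sum

/-- trigonometric polynomials, shifted to the analytic ones. -/
theorem exists_poly_of_mem_span (y : Lp ℂ 1 hc)
    (hy : y ∈ Submodule.span ℂ (Set.range (fourierLp (T := (1 : ℝ)) 1))) :
    ∃ (ψ : Polynomial ℂ) (d : ℕ), (y : AddCircle (1 : ℝ) → ℂ) =ᵐ[hc]
      fun t => fourier (-(d : ℤ)) t * ψ.eval (fourier 1 t : ℂ) := by
  have hpow : ∀ (t : AddCircle (1 : ℝ)) (k : ℕ), (fourier 1 t : ℂ) ^ k = fourier (k : ℤ) t :=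
    fun t k => wv_pow (fun _ => t) 0 k
  induction hy using Submodule.span_induction with
  | mem x hx =>
    obtain ⟨n, rfl⟩ := hx
    refine ⟨Polynomial.X ^ (n + n.natAbs).toNat, n.natAbs, ?_⟩
    refine (coeFn_fourierLp 1 n).trans (Filter.Eventually.of_forall fun t => ?_)
    change (fourier n t : ℂ) = fourier (-(n.natAbs : ℤ)) t *
      Polynomial.eval (fourier 1 t) (Polynomial.X ^ (n + n.natAbs).toNat)
    rw [Polynomial.eval_pow, Polynomial.eval_X, hpow, ← fourier_add]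
    congr 1
    congr 1
    omega
  | zero =>
    refine ⟨0, 0, ?_⟩
    refine (Lp.coeFn_zero ℂ 1 hc).trans (Filter.Eventually.of_forall fun t => ?_)
    simp
  | add x y hx hy ihx ihy =>
    obtain ⟨ψ₁, d₁, h₁⟩ := ihx
    obtain ⟨ψ₂, d₂, h₂⟩ := ihy
    refine ⟨Polynomial.X ^ d₂ * ψ₁ + Polynomial.X ^ d₁ * ψ₂, d₁ + d₂, ?_⟩
    refine (Lp.coeFn_add x y).trans ?_
    filter_upwards [h₁, h₂] with t e₁ e₂
    rw [Pi.add_apply, e₁, e₂, Polynomial.eval_add, Polynomial.eval_mul, Polynomial.eval_mul,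
      Polynomial.eval_pow, Polynomial.eval_pow, Polynomial.eval_X, hpow, hpow, mul_add,
      ← mul_assoc, ← mul_assoc, ← fourier_add, ← fourier_add]
    congr 4 <;> push_cast <;> ring
  | smul a x hx ih =>
    obtain ⟨ψ, d, h⟩ := ih
    refine ⟨Polynomial.C a * ψ, d, ?_⟩
    refine (Lp.coeFn_smul a x).trans ?_
    filter_upwards [h] with t e
    rw [Pi.smul_apply, e, Polynomial.eval_mul, Polynomial.eval_C, smul_eq_mul]
    ring

theorem exists_approx (g : Lp ℂ 1 hc) (ε : ℝ) (hε : 0 < ε) :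
    ∃ (ψ : Polynomial ℂ) (d : ℕ),
      ∫ t, ‖fourier (-(d : ℤ)) t * ψ.eval (fourier 1 t : ℂ) - g t‖ ∂hc ≤ ε := by
  have h1 : g ∈ (Submodule.span ℂ (Set.range (fourierLp (T := (1 : ℝ)) 1))).topologicalClosure := by
    rw [span_fourierLp_closure_eq_top (by simp)]
    trivial
  have h2 : g ∈ closure ((Submodule.span ℂ (Set.range (fourierLp (T := (1 : ℝ)) 1)) :
      Submodule ℂ (Lp ℂ 1 hc)) : Set (Lp ℂ 1 hc)) := h1
  rw [Metric.mem_closure_iff] at h2
  obtain ⟨y, hy, hyd⟩ := h2 ε hε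
  obtain ⟨ψ, d, h⟩ := exists_poly_of_mem_span y hy
  refine ⟨ψ, d, ?_⟩
  rw [dist_comm, dist_eq_norm, L1.norm_eq_integral_norm] at hyd
  refine le_of_eq_of_le ?_ hyd.le
  apply integral_congr_ae
  filter_upwards [h, Lp.coeFn_sub y g] with t e₁ e₂
  rw [e₂, Pi.sub_apply, e₁]

/-- bumps on disjoint sets. -/
theorem exists_bumps : ∃ (I : ℕ → Set (AddCircle (1 : ℝ))) (ψ : ℕ → Polynomial ℂ) (d : ℕ → ℕ),
    (∀ n, MeasurableSet (I n)) ∧ Pairwise (Function.onFun Disjoint I) ∧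
    ∀ n, ∃ g : AddCircle (1 : ℝ) → ℂ, Integrable g hc ∧ (∀ t ∉ I n, g t = 0) ∧
      ∫ t, ‖g t‖ ∂hc = 1 ∧ ∫ t in I n, g t ∂hc = 1 ∧
      ∫ t, ‖fourier (-(d n : ℤ)) t * (ψ n).eval (fourier 1 t : ℂ) - g t‖ ∂hc ≤ 1 / 8 := by
  have hinf : Infinite (AddCircle (1 : ℝ)) :=
    Infinite.of_injective (fun n : ℕ => ((1 / ((n : ℝ) + 1) : ℝ) : AddCircle (1 : ℝ))) (by
      intro a b hab
      have h1 : ∀ n : ℕ, (1 / ((n : ℝ) + 1) : ℝ) ∈ Set.Ioc (0 : ℝ) (0 + 1) := by
        intro n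
        constructor
        · positivity
        · rw [zero_add, div_le_one (by positivity)]
          have : (0 : ℝ) ≤ n := Nat.cast_nonneg n
          linarith
      have h2 := (AddCircle.coe_eq_coe_iff_of_mem_Ioc (p := (1 : ℝ)) (h1 a) (h1 b)).1 hab
      have h3 : ((a : ℝ) + 1) = (b : ℝ) + 1 := by
        have ha : (0 : ℝ) < (a : ℝ) + 1 := by positivity
        have hb : (0 : ℝ) < (b : ℝ) + 1 := by positivity
        field_simp at h2
        linarith
      have h4 : (a : ℝ) = b := by linarith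
      exact_mod_cast h4)
  obtain ⟨I, hI1, hI2, hI3⟩ := exists_seq_infinite_isOpen_pairwise_disjoint (AddCircle (1 : ℝ))
  have hpos : ∀ n, 0 < hc (I n) := fun n => (hI2 n).measure_pos hc (hI1 n).nonempty
  have hfin : ∀ n, hc (I n) ≠ ⊤ := fun n => measure_ne_top hc (I n)
  have hpos' : ∀ n, 0 < hc.real (I n) := fun n => ENNReal.toReal_pos (hpos n).ne' (hfin n)
  have key : ∀ n, ∃ (ψ : Polynomial ℂ) (d : ℕ), ∃ g : AddCircle (1 : ℝ) → ℂ, Integrable g hc ∧
      (∀ t ∉ I n, g t = 0) ∧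
      ∫ t, ‖g t‖ ∂hc = 1 ∧ ∫ t in I n, g t ∂hc = 1 ∧
      ∫ t, ‖fourier (-(d : ℤ)) t * ψ.eval (fourier 1 t : ℂ) - g t‖ ∂hc ≤ 1 / 8 := by
    intro n
    obtain ⟨c, hc'⟩ : ∃ c : ℂ, c = (((hc.real (I n))⁻¹ : ℝ) : ℂ) := ⟨_, rfl⟩
    obtain ⟨ψ, d, h⟩ := exists_approx
      (indicatorConstLp 1 (hI2 n).measurableSet (hfin n) c) (1 / 8) (by norm_num)
    refine ⟨ψ, d, (I n).indicator (fun _ => c), ?_, ?_, ?_, ?_, ?_⟩
    · exact (integrable_const c).indicator (hI2 n).measurableSet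
    · intro t ht
      exact Set.indicator_of_notMem ht _
    · have e1 : (fun t => ‖(I n).indicator (fun _ => c) t‖) =
          (I n).indicator (fun _ => (hc.real (I n))⁻¹) := by
        funext t
        by_cases ht : t ∈ I n
        · rw [Set.indicator_of_mem ht, Set.indicator_of_mem ht, hc', Complex.norm_real,
            Real.norm_of_nonneg (inv_nonneg.2 (hpos' n).le)]
        · rw [Set.indicator_of_notMem ht, Set.indicator_of_notMem ht, norm_zero]
      rw [e1, integral_indicator (hI2 n).measurableSet, setIntegral_const, smul_eq_mul,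
        mul_inv_cancel₀ (hpos' n).ne']
    · have e1 : ∫ t in I n, (I n).indicator (fun _ => c) t ∂hc = ∫ t in I n, c ∂hc := by
        apply setIntegral_congr_fun (hI2 n).measurableSet
        intro t ht
        exact Set.indicator_of_mem ht _
      rw [e1, setIntegral_const, hc', Complex.real_smul, ← Complex.ofReal_mul,
        mul_inv_cancel₀ (hpos' n).ne', Complex.ofReal_one]
    · refine le_of_eq_of_le ?_ h
      apply integral_congr_ae
      filter_upwards [indicatorConstLp_coeFn (p := 1) (hs := (hI2 n).measurableSet)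
        (hμs := hfin n) (c := c)] with t ht
      rw [ht]
  choose ψ d h using key
  exact ⟨I, ψ, d, fun n => (hI2 n).measurableSet, hI3, h⟩

end L1Sum

end HBasis
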