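import Pool.Agent.Helper36.HBasis.Basic

open MeasureTheory Filter Topology

namespace HBasis

namespace Walk

/-! ### the walk -/

/-- step length at the point `z`. -/
noncomputable def act (δ : ℝ) (z : ℂ) : ℝ := if ‖z‖ ≤ 1 - δ then δ else 0

/-- the walk. -/
noncomputable def walk (δ : ℝ) (K : ℕ) : (M : ℕ) → Om K M → ℂ
  | 0 => fun _ => 0
  | (M + 1) => fun ω => walk δ K M ω.1 + (act δ (walk δ K M ω.1) : ℂ) * rt K ω.2

/-- coefficients of the linearised power of the walk. -/
noncomputable def Jc (δ : ℝ) (K k : ℕ) : (M : ℕ) → Xi K M → ℂ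
  | 0 => fun _ => if k = 0 then 1 else 0
  | (M + 1) => fun ξ =>
      Sum.elim (fun ξ' => Jc δ K k M ξ')
        (fun a => (act δ (walk δ K M a) : ℂ) * (k : ℂ) * walk δ K M a ^ (k - 1)) ξ

/-- the linearised power of the walk. -/
noncomputable def JJ (δ : ℝ) (K k M : ℕ) (ω : Om K M) : ℂ :=
  ∑ ξ, Jc δ K k M ξ * bet K M ξ ω

theorem walk_succ (δ : ℝ) (K M : ℕ) (a : Om K M) (s : Fin K) :
    walk δ K (M + 1) (a, s) = walk δ K M a + (act δ (walk δ K M a) : ℂ) * rt K s := rfl

theorem sum_xi_succ {K M : ℕ} (f : Xi K (M + 1) → ℂ) :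
    ∑ ξ, f ξ = (∑ ξ : Xi K M, f (Sum.inl ξ)) + ∑ a : Om K M, f (Sum.inr a) :=
  Fintype.sum_sum_type f

theorem sum_xi_zero {K : ℕ} (f : Xi K 0 → ℂ) : ∑ ξ, f ξ = f () :=
  Fintype.sum_unique (ι := Unit) f

theorem JJ_succ (δ : ℝ) (K k M : ℕ) (a : Om K M) (s : Fin K) :
    JJ δ K k (M + 1) (a, s) = JJ δ K k M a +
      (act δ (walk δ K M a) : ℂ) * (k : ℂ) * walk δ K M a ^ (k - 1) * rt K s := by
  unfold JJ
  rw [sum_xi_succ]
  congr 1
  rw [Finset.sum_eq_single a]
  · simp [Jc, bet]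
  · intro b _ hb
    simp [bet, Ne.symm hb]
  · simp

theorem avg_succ {K M : ℕ} (f : Om K (M + 1) → ℝ) :
    avg f = avg (fun a : Om K M => avg (fun s : Fin K => f (a, s))) := avg_prod f

theorem cavg_succ {K M : ℕ} (f : Om K (M + 1) → ℂ) :
    cavg f = cavg (fun a : Om K M => cavg (fun s : Fin K => f (a, s))) := cavg_prod f

instance nonemptyOm {K : ℕ} [NeZero K] : ∀ M, Nonempty (Om K M)
  | 0 => ⟨()⟩
  | (M + 1) => by
      have := nonemptyOm (K := K) M
      exact inferInstanceAs (Nonempty (Om K M × Fin K))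

theorem act_nonneg {δ : ℝ} (h : 0 ≤ δ) (z : ℂ) : 0 ≤ act δ z := by
  unfold act; split_ifs <;> linarith

theorem act_le {δ : ℝ} (h : 0 ≤ δ) (z : ℂ) : act δ z ≤ δ := by
  unfold act; split_ifs <;> linarith

theorem norm_walk_le {δ : ℝ} (h0 : 0 ≤ δ) (K : ℕ) :
    ∀ (M : ℕ) (ω : Om K M), ‖walk δ K M ω‖ ≤ 1
  | 0, _ => by simp [walk]
  | (M + 1), (a, s) => by
      rw [walk_succ]
      have hI := norm_walk_le h0 K M a
      unfold act
      split_ifs with h
      · calc _ ≤ ‖walk δ K M a‖ + ‖((δ : ℝ) : ℂ) * rt K s‖ := norm_add_le _ _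
          _ = ‖walk δ K M a‖ + δ := by
              rw [norm_mul, norm_rt, mul_one, Complex.norm_real, Real.norm_of_nonneg h0]
          _ ≤ 1 := by linarith
      · simpa using hI

/-- the powers of the walk have mean zero. -/
theorem cavg_walk_pow {δ : ℝ} {K : ℕ} {k : ℕ} (hk : 1 ≤ k) (hK : k < K) :
    ∀ M : ℕ, cavg (fun ω : Om K M => walk δ K M ω ^ k) = 0
  | 0 => by
      simp only [walk, zero_pow (by omega : k ≠ 0)]
      unfold cavg; simp
  | (M + 1) => by
      rw [cavg_succ]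
      simp only [walk_succ]
      simp only [cavg_moment_zero _ _ hK]
      exact cavg_walk_pow hk hK M

/-- the powers of the walk are orthogonal to the conjugates of the basis functions. -/
theorem cavg_bet_walk_pow {δ : ℝ} {K : ℕ} {k : ℕ} (hk : 1 ≤ k) (hK : k + 1 < K) :
    ∀ (M : ℕ) (ξ : Xi K M), cavg (fun ω : Om K M => bet K M ξ ω * walk δ K M ω ^ k) = 0
  | 0, _ => by
      simp only [walk, zero_pow (by omega : k ≠ 0), mul_zero]
      unfold cavg; simp
  | (M + 1), Sum.inl ξ => by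
      rw [cavg_succ]
      have h1 : ∀ a : Om K M, cavg (fun s : Fin K => bet K (M + 1) (Sum.inl ξ) (a, s) *
          walk δ K (M + 1) (a, s) ^ k) = bet K M ξ a * walk δ K M a ^ k := by
        intro a
        have h2 : ∀ s : Fin K, bet K (M + 1) (Sum.inl ξ) (a, s) * walk δ K (M + 1) (a, s) ^ k =
            bet K M ξ a * (walk δ K M a + (act δ (walk δ K M a) : ℂ) * rt K s) ^ k := by
          intro s; rfl
        simp only [h2]
        rw [cavg_mul_left, cavg_moment_zero _ _ (by omega)]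
      simp only [h1]
      exact cavg_bet_walk_pow hk hK M ξ
  | (M + 1), Sum.inr b => by
      rw [cavg_succ]
      have h1 : ∀ a : Om K M, cavg (fun s : Fin K => bet K (M + 1) (Sum.inr b) (a, s) *
          walk δ K (M + 1) (a, s) ^ k) = 0 := by
        intro a
        have h2 : ∀ s : Fin K, bet K (M + 1) (Sum.inr b) (a, s) * walk δ K (M + 1) (a, s) ^ k =
            (if a = b then 1 else 0) *
              (rt K s ^ 1 * (walk δ K M a + (act δ (walk δ K M a) : ℂ) * rt K s) ^ k) := by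
          intro s
          rw [walk_succ]
          simp only [bet]
          split_ifs <;> simp
        simp only [h2]
        rw [cavg_mul_left, cavg_moment _ _ (by omega)]
        simp
      simp only [h1]
      unfold cavg; simp

theorem avg_normSq_step {K : ℕ} (hK : 1 < K) (x : ℂ) (d : ℝ) :
    avg (fun s : Fin K => ‖x + (d : ℂ) * rt K s‖ ^ 2) = ‖x‖ ^ 2 + d ^ 2 := by
  have : NeZero K := ⟨by omega⟩
  have h1 : ∀ s : Fin K, ‖x + (d : ℂ) * rt K s‖ ^ 2 =
      (‖x‖ ^ 2 + d ^ 2) + 2 * ((starRingEnd ℂ x * d * rt K s)).re := by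
    intro s
    have h2 := norm_rt K s
    rw [← Complex.normSq_eq_norm_sq, Complex.normSq_add, Complex.normSq_mul,
      Complex.normSq_eq_norm_sq (rt K s), h2, Complex.normSq_ofReal, Complex.normSq_eq_norm_sq x]
    have : (x * (starRingEnd ℂ) (↑d * rt K s)).re = ((starRingEnd ℂ x * d * rt K s)).re := by
      rw [← Complex.conj_re (starRingEnd ℂ x * d * rt K s)]
      simp only [map_mul, Complex.conj_conj, Complex.conj_ofReal, mul_assoc]
    rw [this]
    ring
  simp only [h1]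
  rw [avg_add, avg_const, avg_mul_left, ← cavg_re, cavg_mul_left, cavg_rt hK]
  simp

theorem avg_walk_sq_succ {δ : ℝ} {K : ℕ} (hK : 1 < K) (M : ℕ) :
    avg (fun ω : Om K (M + 1) => ‖walk δ K (M + 1) ω‖ ^ 2) =
      avg (fun ω : Om K M => ‖walk δ K M ω‖ ^ 2) +
        avg (fun ω : Om K M => act δ (walk δ K M ω) ^ 2) := by
  rw [avg_succ]
  simp only [walk_succ, avg_normSq_step hK]
  rw [avg_add]

/-- the indicator that the walk is still moving. -/
noncomputable def ind (δ : ℝ) (z : ℂ) : ℝ := if ‖z‖ ≤ 1 - δ then 1 else 0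

theorem act_sq (δ : ℝ) (z : ℂ) : act δ z ^ 2 = δ ^ 2 * ind δ z := by
  unfold act ind; split_ifs <;> simp

theorem ind_nonneg (δ : ℝ) (z : ℂ) : 0 ≤ ind δ z := by
  unfold ind; split_ifs <;> norm_num

theorem ind_le (δ : ℝ) (z : ℂ) : ind δ z ≤ 1 := by
  unfold ind; split_ifs <;> norm_num

theorem avg_ind_anti {δ : ℝ} {K : ℕ} [NeZero K] (M : ℕ) :
    avg (fun ω : Om K (M + 1) => ind δ (walk δ K (M + 1) ω)) ≤
      avg (fun ω : Om K M => ind δ (walk δ K M ω)) := by
  rw [avg_succ]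
  apply avg_mono
  intro a
  rw [← avg_const (α := Fin K) (ind δ (walk δ K M a))]
  apply avg_mono
  intro s
  rw [walk_succ]
  by_cases h : ‖walk δ K M a‖ ≤ 1 - δ
  · have : ind δ (walk δ K M a) = 1 := by unfold ind; rw [if_pos h]
    rw [this]
    exact ind_le _ _
  · have : act δ (walk δ K M a) = 0 := by unfold act; rw [if_neg h]
    rw [this]
    simp

theorem avg_ind_le {δ : ℝ} {K : ℕ} (hK : 1 < K) : ∀ M : ℕ,
    δ ^ 2 * (M : ℝ) * avg (fun ω : Om K M => ind δ (walk δ K M ω)) ≤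
      avg (fun ω : Om K M => ‖walk δ K M ω‖ ^ 2)
  | 0 => by
      simp only [Nat.cast_zero, mul_zero, zero_mul]
      exact avg_nonneg fun _ => by positivity
  | (M + 1) => by
      have : NeZero K := ⟨by omega⟩
      have h1 := avg_ind_le (δ := δ) hK M
      have h2 := avg_ind_anti (δ := δ) (K := K) M
      rw [avg_walk_sq_succ hK]
      simp only [act_sq]
      rw [avg_mul_left]
      push_cast
      have h3 : δ ^ 2 * ((M : ℝ) + 1) * avg (fun ω : Om K (M + 1) => ind δ (walk δ K (M + 1) ω)) ≤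
        δ ^ 2 * ((M : ℝ) + 1) * avg (fun ω : Om K M => ind δ (walk δ K M ω)) := by
        gcongr
      linarith

theorem avg_walk_sq_le {δ : ℝ} (h0 : 0 ≤ δ) {K : ℕ} [NeZero K] (M : ℕ) :
    avg (fun ω : Om K M => ‖walk δ K M ω‖ ^ 2) ≤ 1 := by
  rw [← avg_const (α := Om K M) 1]
  apply avg_mono
  intro ω
  have := norm_walk_le h0 K M ω
  have h2 := norm_nonneg (walk δ K M ω)
  nlinarith

/-! ### linearisation -/

theorem remainder_bound {x y : ℂ} (hx : ‖x‖ ≤ 1) (hxy : ‖x + y‖ ≤ 1) :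
    ∀ k : ℕ, ‖(x + y) ^ k - x ^ k - (k : ℂ) * x ^ (k - 1) * y‖ ≤ (k : ℝ) ^ 2 * ‖y‖ ^ 2
  | 0 => by simp
  | (k + 1) => by
      have ih := remainder_bound hx hxy k
      have h1 : (x + y) ^ (k + 1) - x ^ (k + 1) - ((k + 1 : ℕ) : ℂ) * x ^ (k + 1 - 1) * y =
          (x + y) * ((x + y) ^ k - x ^ k - (k : ℂ) * x ^ (k - 1) * y) +
            (k : ℂ) * x ^ (k - 1) * y ^ 2 := by
        rcases k with _ | k
        · simp
        · simp only [Nat.add_sub_cancel]
          push_cast
          ring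
      rw [h1]
      have h2 : ‖(x + y) * ((x + y) ^ k - x ^ k - (k : ℂ) * x ^ (k - 1) * y)‖ ≤
          (k : ℝ) ^ 2 * ‖y‖ ^ 2 := by
        rw [norm_mul]
        calc _ ≤ 1 * ‖((x + y) ^ k - x ^ k - (k : ℂ) * x ^ (k - 1) * y)‖ := by gcongr
          _ ≤ _ := by rw [one_mul]; exact ih
      have h3 : ‖(k : ℂ) * x ^ (k - 1) * y ^ 2‖ ≤ (k : ℝ) * ‖y‖ ^ 2 := by
        rw [norm_mul, norm_mul, Complex.norm_natCast, norm_pow, norm_pow]
        have : ‖x‖ ^ (k - 1) ≤ 1 := pow_le_one₀ (norm_nonneg _) hx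
        have h4 : (k : ℝ) * ‖x‖ ^ (k - 1) ≤ (k : ℝ) * 1 := by gcongr
        have h5 : (0 : ℝ) ≤ ‖y‖ ^ 2 := by positivity
        nlinarith
      have h6 : (0 : ℝ) ≤ ‖y‖ ^ 2 := by positivity
      have h7 : (0 : ℝ) ≤ (k : ℝ) := by positivity
      calc _ ≤ _ := norm_add_le _ _
        _ ≤ (k : ℝ) ^ 2 * ‖y‖ ^ 2 + (k : ℝ) * ‖y‖ ^ 2 := add_le_add h2 h3
        _ ≤ _ := by push_cast; nlinarith [mul_nonneg h7 h6]

theorem avg_lin {δ : ℝ} (h0 : 0 ≤ δ) {K k : ℕ} (hK : 1 < K) (hk : k < K) : ∀ M : ℕ,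
    avg (fun ω : Om K M => ‖walk δ K M ω ^ k - JJ δ K k M ω‖ ^ 2) ≤
      ((k : ℝ) ^ 4 * δ ^ 2) * avg (fun ω : Om K M => ‖walk δ K M ω‖ ^ 2)
  | 0 => by
      have h1 : ∀ ω : Om K 0, walk δ K 0 ω ^ k - JJ δ K k 0 ω = 0 := by
        intro ω
        have : JJ δ K k 0 ω = if k = 0 then 1 else 0 := by
          unfold JJ
          rw [sum_xi_zero]
          simp [Jc, bet]
        rw [this]
        simp only [walk]
        split_ifs with h
        · subst h; simp
        · simp [h]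
      have h2 : 0 ≤ avg (fun ω : Om K 0 => ‖walk δ K 0 ω‖ ^ 2) :=
        avg_nonneg fun _ => by positivity
      simp only [h1, norm_zero]
      have : avg (fun _ : Om K 0 => (0 : ℝ) ^ 2) = 0 := by unfold avg; simp
      rw [this]
      positivity
  | (M + 1) => by
      have : NeZero K := ⟨by omega⟩
      have ih := avg_lin h0 hK hk M
      rw [avg_walk_sq_succ hK, avg_succ, mul_add]
      set C : ℝ := (k : ℝ) ^ 4 * δ ^ 2 with hC
      have hCn : 0 ≤ C := by positivity
      have key : ∀ a : Om K M, avg (fun s : Fin K =>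
          ‖walk δ K (M + 1) (a, s) ^ k - JJ δ K k (M + 1) (a, s)‖ ^ 2) ≤
          ‖walk δ K M a ^ k - JJ δ K k M a‖ ^ 2 + C * act δ (walk δ K M a) ^ 2 := by
        intro a
        set x := walk δ K M a with hx
        set d := act δ x with hd
        set D := x ^ k - JJ δ K k M a with hD
        set R : Fin K → ℂ := fun s =>
          (x + (d : ℂ) * rt K s) ^ k - x ^ k - (k : ℂ) * x ^ (k - 1) * ((d : ℂ) * rt K s) with hR
        have e1 : ∀ s : Fin K, walk δ K (M + 1) (a, s) ^ k - JJ δ K k (M + 1) (a, s) = D + R s := by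
          intro s
          rw [walk_succ, JJ_succ, ← hx, ← hd, hD, hR]
          ring
        have e2 : ∀ s : Fin K, ‖D + R s‖ ^ 2 = ‖D‖ ^ 2 + ‖R s‖ ^ 2 +
            2 * (starRingEnd ℂ D * R s).re := by
          intro s
          rw [← Complex.normSq_eq_norm_sq, Complex.normSq_add, Complex.normSq_eq_norm_sq,
            Complex.normSq_eq_norm_sq]
          have : (D * (starRingEnd ℂ) (R s)).re = (starRingEnd ℂ D * R s).re := by
            rw [← Complex.conj_re (starRingEnd ℂ D * R s)]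
            simp only [map_mul, Complex.conj_conj]
          rw [this]
        have e3 : cavg R = 0 := by
          have h1 := cavg_moment_zero (K := K) x d hk
          have h2 := cavg_rt hK
          rw [hR]
          rw [cavg_sub, cavg_sub, h1, cavg_const]
          have h3 : cavg (fun s : Fin K => (k : ℂ) * x ^ (k - 1) * ((d : ℂ) * rt K s)) = 0 := by
            rw [cavg_mul_left, cavg_mul_left, h2]
            simp
          rw [h3]; ring
        simp only [e1, e2]
        rw [avg_add, avg_add, avg_const, avg_mul_left, ← cavg_re, cavg_mul_left, e3]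
        simp only [mul_zero, Complex.zero_re, add_zero]
        gcongr
        rw [← avg_const (α := Fin K) (C * d ^ 2)]
        apply avg_mono
        intro s
        have h4 : ‖x‖ ≤ 1 := norm_walk_le h0 K M a
        have h5 : ‖x + (d : ℂ) * rt K s‖ ≤ 1 := norm_walk_le h0 K (M + 1) (a, s)
        have h6 := remainder_bound h4 h5 k
        have h7 : ‖(d : ℂ) * rt K s‖ = d := by
          rw [norm_mul, norm_rt, mul_one, Complex.norm_real,
            Real.norm_of_nonneg (act_nonneg h0 _)]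
        rw [h7] at h6
        have h8 : d ≤ δ := act_le h0 _
        have h9 : 0 ≤ d := act_nonneg h0 _
        calc ‖R s‖ ^ 2 ≤ ((k : ℝ) ^ 2 * d ^ 2) ^ 2 := by
              gcongr
          _ = (k : ℝ) ^ 4 * d ^ 2 * d ^ 2 := by ring
          _ ≤ (k : ℝ) ^ 4 * δ ^ 2 * d ^ 2 := by gcongr
      calc _ ≤ avg (fun a : Om K M => ‖walk δ K M a ^ k - JJ δ K k M a‖ ^ 2 +
            C * act δ (walk δ K M a) ^ 2) := avg_mono key
        _ = _ := by rw [avg_add, avg_mul_left]
        _ ≤ _ := by linarith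

end Walk

end HBasis
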