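import Pool.Agent.Helper36.HBasis.WalkA

open MeasureTheory Filter Topology

namespace HBasis

namespace Walk

/-! ### rotation -/

theorem rt_add_one {K : ℕ} [NeZero K] (a : Fin K) :
    rt K (a + 1) = Complex.exp (2 * Real.pi * Complex.I / (K : ℂ)) * rt K a := by
  have hK : K ≠ 0 := NeZero.ne K
  have hp := Complex.isPrimitiveRoot_exp K hK
  rw [rt_eq, rt_eq, Fin.val_add]
  set ζ := Complex.exp (2 * Real.pi * Complex.I / (K : ℂ)) with hζ
  have pm : ∀ n : ℕ, ζ ^ (n % K) = ζ ^ n := by
    intro n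
    conv_rhs => rw [← Nat.div_add_mod n K, pow_add, pow_mul, hp.pow_eq_one, one_pow, one_mul]
  rw [pm, pow_add, Fin.val_one', pm, pow_one, mul_comm]

/-- rotation of the sample space. -/
def rotE (K : ℕ) [NeZero K] : (M : ℕ) → (Om K M ≃ Om K M)
  | 0 => Equiv.refl _
  | (M + 1) => Equiv.prodCongr (rotE K M) (Equiv.addRight (1 : Fin K))

theorem cavg_equiv {α : Type*} [Fintype α] (e : α ≃ α) (f : α → ℂ) :
    cavg (fun a => f (e a)) = cavg f := by
  unfold cavg
  rw [e.sum_comp f]

/-- the generator. -/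
noncomputable def zet (K : ℕ) : ℂ := Complex.exp (2 * Real.pi * Complex.I / (K : ℂ))

theorem norm_zet (K : ℕ) : ‖zet K‖ = 1 := by
  unfold zet
  have : (2 * Real.pi * Complex.I / (K : ℂ)) =
      ((2 * Real.pi / K : ℝ) : ℂ) * Complex.I := by
    push_cast
    ring
  rw [this, Complex.norm_exp_ofReal_mul_I]

theorem act_mul {δ : ℝ} {c z : ℂ} (hc : ‖c‖ = 1) : act δ (c * z) = act δ z := by
  unfold act
  rw [norm_mul, hc, one_mul]

theorem walk_rot {δ : ℝ} {K : ℕ} [NeZero K] : ∀ (M : ℕ) (ω : Om K M),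
    walk δ K M (rotE K M ω) = zet K * walk δ K M ω
  | 0, _ => by simp [walk]
  | (M + 1), (a, s) => by
      have ih := walk_rot (δ := δ) M a
      have h1 : rotE K (M + 1) (a, s) = (rotE K M a, s + 1) := rfl
      rw [h1, walk_succ, walk_succ, ih, act_mul (norm_zet K), rt_add_one]
      unfold zet
      ring

theorem JJ_rot {δ : ℝ} {K k : ℕ} [NeZero K] : ∀ (M : ℕ) (ω : Om K M),
    JJ δ K k M (rotE K M ω) = zet K ^ k * JJ δ K k M ω
  | 0, _ => by
      have : ∀ ω : Om K 0, JJ δ K k 0 ω = if k = 0 then 1 else 0 := by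
        intro ω
        unfold JJ
        rw [sum_xi_zero]
        simp [Jc, bet]
      rw [this, this]
      split_ifs with h
      · subst h; simp
      · simp
  | (M + 1), (a, s) => by
      have ih := JJ_rot (δ := δ) (k := k) M a
      have h1 : rotE K (M + 1) (a, s) = (rotE K M a, s + 1) := rfl
      rw [h1, JJ_succ, JJ_succ, ih, walk_rot, act_mul (norm_zet K), rt_add_one]
      rcases k with _ | k
      · simp
      · simp only [Nat.add_sub_cancel]
        unfold zet
        ring

theorem cavg_JJ_walk {δ : ℝ} {K k j : ℕ} (hk : k < K) (hj : j < K) (hkj : k ≠ j) (M : ℕ) :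
    cavg (fun ω : Om K M => JJ δ K k M ω * (starRingEnd ℂ) (walk δ K M ω) ^ j) = 0 := by
  have hK0 : K ≠ 0 := by omega
  have : NeZero K := ⟨hK0⟩
  set S := cavg (fun ω : Om K M => JJ δ K k M ω * (starRingEnd ℂ) (walk δ K M ω) ^ j) with hS
  have h1 := cavg_equiv (rotE K M) (fun ω : Om K M => JJ δ K k M ω * (starRingEnd ℂ) (walk δ K M ω) ^ j)
  simp only [JJ_rot, walk_rot, map_mul, mul_pow] at h1
  have h2 : ∀ ω : Om K M, zet K ^ k * JJ δ K k M ω * ((starRingEnd ℂ) (zet K) ^ j *
      (starRingEnd ℂ) (walk δ K M ω) ^ j) = (zet K ^ k * (starRingEnd ℂ) (zet K) ^ j) *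
        (JJ δ K k M ω * (starRingEnd ℂ) (walk δ K M ω) ^ j) := by
    intro ω; ring
  simp only [h2] at h1
  rw [cavg_mul_left, ← hS] at h1
  have h3 : zet K ^ k * (starRingEnd ℂ) (zet K) ^ j ≠ 1 := by
    intro h4
    have h5 : (starRingEnd ℂ) (zet K) * zet K = 1 := by
      rw [mul_comm, Complex.mul_conj, Complex.normSq_eq_norm_sq, norm_zet]
      norm_num
    have h6 : zet K ^ k = zet K ^ j := by
      calc zet K ^ k = zet K ^ k * ((starRingEnd ℂ) (zet K) * zet K) ^ j := by rw [h5]; simp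
        _ = (zet K ^ k * (starRingEnd ℂ) (zet K) ^ j) * zet K ^ j := by rw [mul_pow]; ring
        _ = zet K ^ j := by rw [h4, one_mul]
    exact hkj ((Complex.isPrimitiveRoot_exp K hK0).pow_inj hk hj h6)
  have h7 : (zet K ^ k * (starRingEnd ℂ) (zet K) ^ j - 1) * S = 0 := by
    rw [sub_mul, h1, one_mul, sub_self]
  rcases mul_eq_zero.1 h7 with h8 | h8
  · exact absurd (sub_eq_zero.1 h8) h3
  · exact h8

/-! ### the kernel -/

/-- Fejer weights. -/
noncomputable def lw (D j : ℕ) : ℝ := 1 - (j : ℝ) / ((D : ℝ) + 1)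

/-- analytic half of the kernel. -/
noncomputable def FF (D : ℕ) (u : ℂ) : ℂ := ∑ j ∈ Finset.range (D + 1), (lw D j : ℂ) * u ^ j

/-- the kernel. -/
noncomputable def ker (D : ℕ) (u : ℂ) : ℝ := 2 * (FF D u).re - 1

theorem ker_eq (D : ℕ) (u : ℂ) : ((ker D u : ℝ) : ℂ) = FF D u + (starRingEnd ℂ) (FF D u) - 1 := by
  unfold ker
  rw [Complex.add_conj]
  push_cast
  ring

theorem gsum_id (u : ℂ) : ∀ n : ℕ,
    2 * (∑ j ∈ Finset.range n, (((n : ℝ) - (j : ℝ) : ℝ) : ℂ) * u ^ j).re - n =
      Complex.normSq (∑ j ∈ Finset.range n, u ^ j) +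
        (1 - Complex.normSq u) * ∑ m ∈ Finset.range n, Complex.normSq (∑ j ∈ Finset.range m, u ^ j)
  | 0 => by simp
  | (n + 1) => by
      have ih := gsum_id u n
      have h1 : ∑ j ∈ Finset.range (n + 1), ((((n + 1 : ℕ) : ℝ) - (j : ℝ) : ℝ) : ℂ) * u ^ j =
          (∑ j ∈ Finset.range n, (((n : ℝ) - (j : ℝ) : ℝ) : ℂ) * u ^ j) +
            ∑ j ∈ Finset.range (n + 1), u ^ j := by
        rw [Finset.sum_range_succ, Finset.sum_range_succ _ n, ← add_assoc, ← Finset.sum_add_distrib]
        congr 1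
        · apply Finset.sum_congr rfl
          intro j _
          push_cast
          ring
        · push_cast
          ring
      have h2 : ∑ j ∈ Finset.range (n + 1), u ^ j = 1 + u * ∑ j ∈ Finset.range n, u ^ j := by
        rw [Finset.sum_range_succ', Finset.mul_sum, add_comm]
        simp only [pow_zero, pow_succ']
      rw [h1, Complex.add_re, Finset.sum_range_succ (fun m => Complex.normSq (∑ j ∈ Finset.range m, u ^ j)),
        h2]
      set T := ∑ j ∈ Finset.range n, u ^ j with hT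
      have h3 : Complex.normSq (1 + u * T) = 1 + Complex.normSq u * Complex.normSq T +
          2 * (u * T).re := by
        rw [Complex.normSq_add, Complex.normSq_mul]
        simp only [map_one, one_mul, Complex.conj_re]
      have h4 : ((n + 1 : ℕ) : ℝ) = (n : ℝ) + 1 := by push_cast; rfl
      rw [h3, h4]
      simp only [Complex.add_re, Complex.one_re]
      linarith

theorem ker_nonneg {D : ℕ} {u : ℂ} (hu : ‖u‖ ≤ 1) : 0 ≤ ker D u := by
  have h1 := gsum_id u (D + 1)
  have hD : (0 : ℝ) < (D : ℝ) + 1 := by positivity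
  have h2 : ((D : ℝ) + 1) * (FF D u).re = (∑ j ∈ Finset.range (D + 1),
      ((((D + 1 : ℕ) : ℝ) - (j : ℝ) : ℝ) : ℂ) * u ^ j).re := by
    rw [← Complex.re_ofReal_mul]
    congr 1
    unfold FF
    rw [Finset.mul_sum]
    apply Finset.sum_congr rfl
    intro j _
    rw [← mul_assoc, ← Complex.ofReal_mul]
    congr 2
    unfold lw
    push_cast
    field_simp
  rw [← h2] at h1
  have h3 : 0 ≤ Complex.normSq (∑ j ∈ Finset.range (D + 1), u ^ j) := Complex.normSq_nonneg _
  have h4 : 0 ≤ ∑ m ∈ Finset.range (D + 1), Complex.normSq (∑ j ∈ Finset.range m, u ^ j) :=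
    Finset.sum_nonneg fun _ _ => Complex.normSq_nonneg _
  have h5 : 0 ≤ 1 - Complex.normSq u := by
    rw [Complex.normSq_eq_norm_sq]
    nlinarith [norm_nonneg u]
  have h6 : ((D : ℝ) + 1) * ker D u = 2 * (((D : ℝ) + 1) * (FF D u).re) - ((D + 1 : ℕ) : ℝ) := by
    unfold ker
    push_cast
    ring
  have h7 : 0 ≤ ((D : ℝ) + 1) * ker D u := by
    rw [h6, h1]
    have := mul_nonneg h5 h4
    linarith
  exact nonneg_of_mul_nonneg_right (by linarith) hD

theorem lw_zero (D : ℕ) : lw D 0 = 1 := by unfold lw; simp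

/-! ### integrals over the circle -/

theorem int_fourier (n : ℤ) :
    ∫ θ : AddCircle (1 : ℝ), (fourier n θ : ℂ) ∂AddCircle.haarAddCircle = if n = 0 then 1 else 0 := by
  split_ifs with h
  · subst h
    simp
  · exact integral_eq_zero_of_add_right_eq_neg (μ := AddCircle.haarAddCircle)
      (fourier_add_half_inv_index h one_pos)

theorem fourier_one_pow (j : ℕ) (θ : AddCircle (1 : ℝ)) :
    (fourier 1 θ : ℂ) ^ j = fourier (j : ℤ) θ := by
  induction j with
  | zero => simp
  | succ j ih =>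
    rw [pow_succ, ih, ← fourier_add]
    norm_cast

theorem norm_fourier (n : ℤ) (θ : AddCircle (1 : ℝ)) : ‖(fourier n θ : ℂ)‖ = 1 := by
  rw [fourier_apply]
  exact Circle.norm_coe _

theorem integrable_of_cont {E : Type*} [NormedAddCommGroup E] {f : AddCircle (1 : ℝ) → E}
    (hf : Continuous f) : Integrable f AddCircle.haarAddCircle :=
  hf.integrable_of_hasCompactSupport (HasCompactSupport.of_compactSpace _)

theorem FF_mul (D : ℕ) (θ : AddCircle (1 : ℝ)) (z : ℂ) :
    FF D (fourier 1 θ * z) = ∑ j ∈ Finset.range (D + 1), (lw D j : ℂ) * z ^ j * fourier (j : ℤ) θ := by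
  unfold FF
  apply Finset.sum_congr rfl
  intro j _
  rw [mul_pow, fourier_one_pow]
  ring

theorem conj_FF_mul (D : ℕ) (θ : AddCircle (1 : ℝ)) (z : ℂ) :
    (starRingEnd ℂ) (FF D (fourier 1 θ * (starRingEnd ℂ) z)) =
      ∑ j ∈ Finset.range (D + 1), (lw D j : ℂ) * z ^ j * fourier (-(j : ℤ)) θ := by
  rw [FF_mul, map_sum]
  apply Finset.sum_congr rfl
  intro j _
  simp only [map_mul, map_pow, Complex.conj_conj, Complex.conj_ofReal, fourier_neg]

theorem continuous_ker (D : ℕ) (z : ℂ) :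
    Continuous fun θ : AddCircle (1 : ℝ) => ker D (fourier 1 θ * z) := by
  unfold ker FF
  fun_prop

/-- integral of a monomial against the kernel. -/
theorem int_fourier_ker {D k : ℕ} (hk : k ≤ D) (z : ℂ) :
    ∫ θ : AddCircle (1 : ℝ), (fourier (k : ℤ) θ : ℂ) *
      ((ker D (fourier 1 θ * (starRingEnd ℂ) z) : ℝ) : ℂ) ∂AddCircle.haarAddCircle =
        (lw D k : ℂ) * z ^ k := by
  have h1 : ∀ θ : AddCircle (1 : ℝ), (fourier (k : ℤ) θ : ℂ) *
      ((ker D (fourier 1 θ * (starRingEnd ℂ) z) : ℝ) : ℂ) =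
        ((∑ j ∈ Finset.range (D + 1), (lw D j : ℂ) * (starRingEnd ℂ) z ^ j *
            fourier ((k : ℤ) + (j : ℤ)) θ) +
          (∑ j ∈ Finset.range (D + 1), (lw D j : ℂ) * z ^ j * fourier ((k : ℤ) + (-(j : ℤ))) θ)) -
          fourier (k : ℤ) θ := by
    intro θ
    rw [ker_eq, conj_FF_mul, FF_mul, mul_sub, mul_add, Finset.mul_sum, Finset.mul_sum, mul_one]
    congr 2
    · apply Finset.sum_congr rfl
      intro j _
      rw [fourier_add]
      ring
    · apply Finset.sum_congr rfl
      intro j _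
      rw [fourier_add]
      ring
  simp only [h1]
  have hc : ∀ (c : ℂ) (n : ℤ), Integrable (fun θ : AddCircle (1 : ℝ) => c * (fourier n θ : ℂ))
      AddCircle.haarAddCircle := fun c n => integrable_of_cont (by fun_prop)
  rw [integral_sub (by
      apply Integrable.add
      · exact integrable_finsetSum _ fun j _ => hc _ _
      · exact integrable_finsetSum _ fun j _ => hc _ _) (integrable_of_cont (fourier (k : ℤ)).continuous),
    integral_add (integrable_finsetSum _ fun j _ => hc _ _)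
      (integrable_finsetSum _ fun j _ => hc _ _),
    integral_finsetSum _ fun j _ => hc _ _, integral_finsetSum _ fun j _ => hc _ _]
  simp only [integral_const_mul, int_fourier]
  have h2 : ∑ j ∈ Finset.range (D + 1), (lw D j : ℂ) * (starRingEnd ℂ) z ^ j *
      (if (k : ℤ) + (j : ℤ) = 0 then (1 : ℂ) else 0) = if (k : ℤ) = 0 then 1 else 0 := by
    split_ifs with h
    · rw [Finset.sum_eq_single 0]
      · simp [h, lw_zero]
      · intro j _ hj
        rw [if_neg (by omega)]
        simp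
      · simp
    · apply Finset.sum_eq_zero
      intro j _
      rw [if_neg (by omega)]
      simp
  have h3 : ∑ j ∈ Finset.range (D + 1), (lw D j : ℂ) * z ^ j *
      (if (k : ℤ) + (-(j : ℤ)) = 0 then (1 : ℂ) else 0) = (lw D k : ℂ) * z ^ k := by
    rw [Finset.sum_eq_single k]
    · simp
    · intro j _ hj
      rw [if_neg (by omega)]
      simp
    · intro h
      exact absurd (Finset.mem_range.2 (by omega)) h
  rw [h2, h3]
  ring

theorem int_ker (D : ℕ) (z : ℂ) :
    ∫ θ : AddCircle (1 : ℝ), ker D (fourier 1 θ * (starRingEnd ℂ) z)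
      ∂AddCircle.haarAddCircle = 1 := by
  have h1 := int_fourier_ker (D := D) (k := 0) (Nat.zero_le _) z
  simp only [Nat.cast_zero, fourier_zero, one_mul, lw_zero, pow_zero, Complex.ofReal_one] at h1
  rw [integral_complex_ofReal] at h1
  exact_mod_cast h1

theorem int_avg {α : Type*} [Fintype α] (f : α → AddCircle (1 : ℝ) → ℝ)
    (hf : ∀ a, Continuous (f a)) :
    ∫ θ, avg (fun a => f a θ) ∂AddCircle.haarAddCircle =
      avg (fun a => ∫ θ, f a θ ∂AddCircle.haarAddCircle) := by
  unfold avg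
  rw [integral_div, integral_finsetSum _ fun a _ => integrable_of_cont (hf a)]

end Walk

end HBasis
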